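import Pool.Agent.Mg.F18be4d.Ge55dc2
import Pool.Agent.MP_18be4d_al.TwoTrans

section

/-! The semilinear group and its action on isotropic points. -/

open Finset Matrix Pointwise

set_option linter.unusedSectionVars false

namespace Pool.Agent.MP_18be4d_al

variable {K : Type} [Field K] [Fintype K] [UF K] [Algebra (ZMod 2) K]

theorem aut_bar (σ : K ≃ₐ[ZMod 2] K) (x : K) : σ (bar x) = bar (σ x) := by
  rw [bar_apply, bar_apply, map_pow]

/-- entrywise action of a field automorphism -/
def galSU (σ : K ≃ₐ[ZMod 2] K) (a : SU K) : SU K :=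
  mkSU ((mat a).map σ) (by
    have := (σ : K →+* K).map_det (mat a)
    rw [det_mat, map_one] at this
    exact this.symm) (by
    ext i j
    rw [unit_apply]
    have := congrArg σ (unit_entry a i j)
    simp only [map_add, map_mul, aut_bar] at this
    simp only [map_apply]
    rw [this]
    fin_cases i <;> fin_cases j <;> simp [JJ])

variable (K) in
/-- the action of the Galois group -/
@[reducible] def galAct : MulDistribMulAction (K ≃ₐ[ZMod 2] K) (SU K) where
  smul := galSU
  one_smul a := mat_inj (by ext i j; rfl)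
  mul_smul σ τ a := mat_inj (by ext i j; rfl)
  smul_one σ := mat_inj (Matrix.map_one _ (map_zero σ) (map_one σ))
  smul_mul σ a b := mat_inj (Matrix.map_mul (f := (σ : K →+* K)))

variable (K) in
/-- the action of the Galois group as a homomorphism -/
def phi : (K ≃ₐ[ZMod 2] K) →* MulAut (SU K) :=
  @MulDistribMulAction.toMulAut _ _ _ _ (galAct K)

theorem mat_phi (σ : K ≃ₐ[ZMod 2] K) (a : SU K) : mat (phi K σ a) = (mat a).map σ := rfl

theorem tr_phi (σ : K ≃ₐ[ZMod 2] K) (a : SU K) : tr (phi K σ a) = σ (tr a) := by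
  simp [tr, mat_phi, trace, map_sum]

variable (K) in
/-- the semilinear unitary group -/
abbrev Gam : Type := SU K ⋊[phi K] (K ≃ₐ[ZMod 2] K)

instance : MulAction (Gam K) (Fin 3 → K) where
  smul x v := mat x.left *ᵥ (fun i => x.right (v i))
  one_smul v := by
    change mat 1 *ᵥ v = v
    rw [mat_one, one_mulVec]
  mul_smul x y v := by
    change mat (x.left * phi K x.right y.left) *ᵥ (fun i => x.right (y.right (v i))) =
      mat x.left *ᵥ (fun i => x.right ((mat y.left *ᵥ (fun i => y.right (v i))) i))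
    rw [mat_mul, ← mulVec_mulVec, mat_phi]
    congr 1
    ext i
    simp [mulVec, dotProduct, map_sum]

theorem gam_smul (x : Gam K) (v : Fin 3 → K) :
    x • v = mat x.left *ᵥ (fun i => x.right (v i)) := rfl

theorem inl_smul (g : SU K) (v : Fin 3 → K) :
    (SemidirectProduct.inl g : Gam K) • v = mat g *ᵥ v := rfl

theorem gam_smul_smul (x : Gam K) (c : K) (v : Fin 3 → K) :
    x • (c • v) = x.right c • (x • v) := by
  rw [gam_smul, gam_smul, ← mulVec_smul]
  congr 1
  ext i
  simp

/-- the line spanned by a vector -/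
def line (v : Fin 3 → K) : Set (Fin 3 → K) := Set.range (fun c : K => c • v)

theorem smul_line (x : Gam K) (v : Fin 3 → K) : x • line v = line (x • v) := by
  ext w
  simp only [line, Set.mem_smul_set, Set.mem_range]
  constructor
  · rintro ⟨_, ⟨c, rfl⟩, rfl⟩
    exact ⟨x.right c, (gam_smul_smul x c v).symm⟩
  · rintro ⟨c, rfl⟩
    exact ⟨_, ⟨x.right.symm c, rfl⟩, by rw [gam_smul_smul, AlgEquiv.apply_symm_apply]⟩

theorem line_smul (c : K) (hc : c ≠ 0) (v : Fin 3 → K) : line (c • v) = line v := by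
  ext w
  simp only [line, Set.mem_range]
  constructor
  · rintro ⟨d, rfl⟩
    exact ⟨d * c, by rw [smul_smul]⟩
  · rintro ⟨d, rfl⟩
    exact ⟨d * c⁻¹, by rw [smul_smul, inv_mul_cancel_right₀ hc]⟩

theorem exists_of_line_eq {v w : Fin 3 → K} (h : line v = line w) : ∃ c : K, c • w = v := by
  have : v ∈ line v := ⟨1, one_smul _ _⟩
  rw [h] at this
  exact this

variable (K) in
/-- the isotropic points -/
abbrev Om : Type := MulAction.orbit (Gam K) (line (e0 K))

noncomputable instance : Fintype (Om K) := by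
  classical
  exact Fintype.ofFinite _

variable (K) in
/-- base point -/
def pt0 : Om K := ⟨line (e0 K), MulAction.mem_orbit_self _⟩

/-- other points -/
def pt (x : PP K) : Om K := ⟨line ![x.1.2, x.1.1, 1],
  ⟨SemidirectProduct.inl (uu x.1.1 x.1.2 x.2 * ww K), by
    simp only
    rw [smul_line, inl_smul, mat_mul, ← mulVec_mulVec, ww_e0, uu_e2]⟩⟩

theorem pt_cases (y : Om K) : y = pt0 K ∨ ∃ x, y = pt x := by
  obtain ⟨_, g, rfl⟩ := y
  have h1 : g • e0 K = mat g.left *ᵥ e0 K := by
    rw [gam_smul]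
    congr 1
    ext i
    fin_cases i <;> simp [e0]
  have h2 : g • e0 K ≠ 0 := by
    intro h
    have : e0 K = g⁻¹ • (0 : Fin 3 → K) := by rw [← h, inv_smul_smul]
    rw [gam_smul] at this
    have h3 := congrFun this 0
    simp [e0, mulVec, dotProduct] at h3
  have h3 : HF (g • e0 K) (g • e0 K) = 0 := by
    rw [h1, HF_mat]; simp [HF, e0]
  rcases iso_cases _ h2 h3 with ⟨d, hd, h⟩ | ⟨d, hd, b, c, hbc, h⟩
  · left
    apply Subtype.ext
    simp only [pt0]
    rw [smul_line, h, line_smul _ hd]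
  · right
    refine ⟨⟨(b, c), hbc⟩, Subtype.ext ?_⟩
    simp only [pt]
    rw [smul_line, h, line_smul _ hd]

theorem pt_ne (x : PP K) : pt x ≠ pt0 K := by
  intro h
  obtain ⟨c, hc⟩ := exists_of_line_eq (congrArg Subtype.val h)
  have := congrFun hc 2
  simp [e0] at this

theorem pt_inj : Function.Injective (pt : PP K → Om K) := by
  rintro ⟨⟨b, c⟩, h⟩ ⟨⟨b', c'⟩, h'⟩ he
  obtain ⟨d, hd⟩ := exists_of_line_eq (congrArg Subtype.val he)
  have h2 := congrFun hd 2
  have h1 := congrFun hd 1
  have h0 := congrFun hd 0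
  simp at h2 h1 h0
  simp only [h2, one_mul] at h1 h0
  simp [h1, h0]

variable (K) in
theorem card_Om : Fintype.card (Om K) = qq K ^ 3 + 1 := by
  let F : Option (PP K) → Om K := fun o => o.elim (pt0 K) pt
  have hF : Function.Bijective F := by
    constructor
    · rintro (_ | x) (_ | y) h
      · rfl
      · exact absurd h.symm (pt_ne y)
      · exact absurd h (pt_ne x)
      · rw [pt_inj h]
    · intro y
      rcases pt_cases y with rfl | ⟨x, rfl⟩
      · exact ⟨none, rfl⟩
      · exact ⟨some x, rfl⟩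
  rw [← Fintype.card_of_bijective hF, Fintype.card_option, Fintype.card_coe, card_PP]

variable (K) in
theorem twoTrans_Gam : TwoTrans (Gam K) (Om K) := by
  apply twoTrans_of_base (pt0 K) (pt ⟨(0, 0), by simp [mem_PP]⟩)
  · rintro ⟨_, g, rfl⟩
    exact ⟨g, rfl⟩
  · intro y hy
    rcases pt_cases y with rfl | ⟨x, rfl⟩
    · exact absurd rfl hy
    · refine ⟨SemidirectProduct.inl (uu x.1.1 x.1.2 x.2), Subtype.ext ?_, Subtype.ext ?_⟩
      · change (SemidirectProduct.inl (uu x.1.1 x.1.2 x.2) : Gam K) • line (e0 K) = line (e0 K)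
        rw [smul_line, inl_smul, uu_e0]
      · change (SemidirectProduct.inl (uu x.1.1 x.1.2 x.2) : Gam K) • line (e2 K) = line _
        rw [smul_line, inl_smul, uu_e2]

variable (K) in
/-- the permutation group induced on isotropic points -/
abbrev GG : Type := (MulAction.toPermHom (Gam K) (Om K)).range

variable (K) in
theorem twoTrans_GG : TwoTrans (GG K) (Om K) := by
  intro x y x' y' h h'
  obtain ⟨g, hg⟩ := twoTrans_Gam K x y x' y' h h'
  exact ⟨⟨_, g, rfl⟩, hg⟩

theorem zz_trivial (z : K) (h : z ^ 3 = 1) :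
    (MulAction.toPermHom (Gam K) (Om K)).rangeRestrict (SemidirectProduct.inl (zz z h)) = 1 := by
  apply Subtype.ext
  ext1 y
  obtain ⟨_, g, rfl⟩ := y
  apply Subtype.ext
  change (SemidirectProduct.inl (zz z h) : Gam K) • g • line (e0 K) = g • line (e0 K)
  rw [smul_line, smul_line, inl_smul, mat_zz, smul_mulVec, one_mulVec, line_smul]
  rintro rfl
  simp at h

theorem class_number_GG (n : ℕ) (hn : Nat.card (K ≃ₐ[ZMod 2] K) = n)
    (hfix : ∀ ρ : K ≃ₐ[ZMod 2] K, ρ ≠ 1 → ∀ t : K, ρ (t ^ 3) = t ^ 3 → bar (t ^ 3) = t ^ 3) :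
    (Nat.card (ConjClasses (GG K)) : ℝ) ≤ ((qq K : ℝ) + 1) ^ 2 / (3 * n) +
      (n + 1) * (5 * (qq K + 1) + 3 * (qq K : ℝ) ^ 3 / (qq K - 1) ^ 2) := by
  classical
  have : Fintype (K ≃ₐ[ZMod 2] K) := Fintype.ofFinite _
  let Z : Finset (SU K) := (ZZ K).attach.image (fun z => zz z.1 (mem_ZZ.1 z.2))
  have hZ : ∀ z ∈ Z, ∃ c h, z = zz c h := by
    intro z hz
    obtain ⟨c, -, rfl⟩ := mem_image.1 hz
    exact ⟨_, _, rfl⟩
  have hZc : Z.card = 3 := by
    rw [Finset.card_image_of_injective, card_attach, card_ZZ]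
    intro c d h
    have := congrFun (congrFun (congrArg mat h) 0) 0
    apply Subtype.ext
    simpa [mat_zz] using this
  have hσ : ∀ a : SU K, Good a → ∀ σ σ' : K ≃ₐ[ZMod 2] K, σ (tr a ^ 3) = σ' (tr a ^ 3) →
      σ = σ' := by
    intro a ha σ σ' h
    by_contra hc
    apply ha.2
    apply hfix (σ'⁻¹ * σ)
    · intro h1
      exact hc (inv_mul_eq_one.1 h1).symm
    · rw [AlgEquiv.mul_apply, h, ← AlgEquiv.mul_apply, inv_mul_cancel, AlgEquiv.one_apply]
  have key := class_number_le (phi K) (MulAction.toPermHom (Gam K) (Om K)).rangeRestrict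
    (MonoidHom.rangeRestrict_surjective _) Z ?_ (card_pos.1 (by omega)) Good ((qq K + 1) ^ 2)
    ?_ ?_ ?_
  · rw [hZc, ← Nat.card_eq_fintype_card (α := K ≃ₐ[ZMod 2] K), hn] at key
    refine le_trans key ?_
    push_cast
    rw [mul_div_assoc]
    gcongr
    rw [div_le_iff₀ (by exact_mod_cast Fintype.card_pos)]
    convert sum_cent_bad (K := K)
  · intro z hz
    obtain ⟨c, h, rfl⟩ := hZ z hz
    exact zz_trivial c h
  · intro a ha g g' σ σ' z hz z' hz' he
    obtain ⟨c, h, rfl⟩ := hZ z hz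
    obtain ⟨c', h', rfl⟩ := hZ z' hz'
    have e := congrArg tr he
    rw [tr_zz_mul, tr_zz_mul, tr_conj, tr_conj, tr_phi, tr_phi] at e
    have e3 := congrArg (· ^ 3) e
    simp only [mul_pow, h, h', one_mul, ← map_pow] at e3
    obtain rfl := hσ a ha σ σ' e3
    have t0 : σ (tr a) ≠ 0 := by
      rw [map_ne_zero]
      intro h0
      apply ha.2
      simp [h0]
    obtain rfl := mul_right_cancel₀ t0 e
    exact ⟨rfl, rfl⟩
  · intro a ha σ
    apply cent_le
    rw [tr_phi, ← aut_bar, ← map_mul, ← map_one σ]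
    exact fun h => ha.1 (σ.injective h)
  · intro a ha σ h1 h he
    have e : a = h * phi K σ a * h⁻¹ := by rw [← he, mul_inv_cancel_right]
    have e2 := congrArg tr e
    rw [tr_conj, tr_phi] at e2
    apply h1
    apply hσ a ha
    rw [map_pow, ← e2, AlgEquiv.one_apply]

end Pool.Agent.MP_18be4d_al

end

section

/-! The counterexample. -/

open CategoryTheory

namespace Pool.Agent.MP_18be4d_al

theorem prime_p : Nat.Prime 96076791871613611 := by
  apply lucas_primality 96076791871613611 (13 : ZMod 96076791871613611)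
  · norm_num
    reduce_mod_char
  · intro q hq hd
    have e : 96076791871613611 - 1 = 2 * 3 * 5 * 29 * 43 * 59 * 113 * 127 * 3033169 := by norm_num
    rw [e] at hd
    simp only [Nat.Prime.dvd_mul hq] at hd
    rcases hd with ((((((((h | h) | h) | h) | h) | h) | h) | h) | h) <;>
      rw [(Nat.prime_dvd_prime_iff_eq hq (by norm_num)).1 h] <;> norm_num <;> reduce_mod_char <;>
      decide

/-- the field with `2 ^ 58` elements -/
abbrev KK : Type := GaloisField 2 58

noncomputable instance : Fintype KK := Fintype.ofFinite _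

theorem card_KK : Fintype.card KK = 2 ^ 58 := by
  rw [← Nat.card_eq_fintype_card, GaloisField.card 2 58 (by norm_num)]

noncomputable instance : UF KK where
  f := 29
  char2 := inferInstance
  card_eq := by rw [card_KK, ← pow_mul]
  odd_f := by decide

theorem qq_KK : qq KK = 2 ^ 29 := rfl

theorem card_gal : Nat.card (KK ≃ₐ[ZMod 2] KK) = 58 := by
  rw [IsGalois.card_aut_eq_finrank, GaloisField.finrank 2 (by norm_num)]

theorem fix_KK (ρ : KK ≃ₐ[ZMod 2] KK) (h1 : ρ ≠ 1) (t : KK) (h : ρ (t ^ 3) = t ^ 3) :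
    bar (t ^ 3) = t ^ 3 := by
  obtain ⟨⟨i, hi⟩, rfl⟩ := (FiniteField.bijective_frobeniusAlgEquivOfAlgebraic_pow (ZMod 2) KK).2 ρ
  rw [GaloisField.finrank 2 (by norm_num)] at hi
  have hi0 : i ≠ 0 := by
    rintro rfl
    exact h1 (pow_zero _)
  let F : KK → KK := fun x => x ^ 2
  have hF : ∀ n (x : KK), F^[n] x = x ^ 2 ^ n := by
    intro n x
    induction n with
    | zero => simp
    | succ n ih => rw [Function.iterate_succ_apply', ih, pow_succ, pow_mul]
  have p1 : Function.IsPeriodicPt F i (t ^ 3) := by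
    change F^[i] _ = _
    rw [hF]
    simp only [AlgEquiv.coe_pow, FiniteField.coe_frobeniusAlgEquivOfAlgebraic_iterate,
      ZMod.card] at h
    exact h
  have p2 : ∀ x : KK, Function.IsPeriodicPt F 58 x := by
    intro x
    change F^[58] _ = _
    rw [hF, ← card_KK, FiniteField.pow_card]
  have p3 := p1.gcd (p2 _)
  have hg : Nat.gcd i 58 ∣ 29 ∨ Nat.gcd i 58 = 2 := by
    interval_cases i <;> first | exact absurd rfl hi0 | decide
  rcases hg with hg | hg
  · have p4 := p3.trans_dvd hg
    rw [bar_apply, qq_KK, ← hF]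
    exact p4
  · rw [hg] at p3
    have p4 : (t ^ 3) ^ 2 ^ 2 = t ^ 3 := by rw [← hF]; exact p3
    by_cases t0 : t = 0
    · simp [t0]
    · have h9 : t ^ 9 = 1 := by
        apply mul_left_cancel₀ (pow_ne_zero 3 t0)
        rw [mul_one, ← p4]
        nth_rewrite 1 [p4]
        ring
      have h2 := FiniteField.pow_card_sub_one_eq_one t t0
      rw [card_KK] at h2
      have h3 : t ^ 3 = 1 := by
        have := (pow_gcd_eq_one (a := t) (m := 9) (n := 2 ^ 58 - 1)).2 ⟨h9, h2⟩
        have e : Nat.gcd 9 (2 ^ 58 - 1) = 3 := by norm_num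
        rwa [e] at this
      rw [h3, map_one]

theorem logb_le : Real.logb 2 (96076791871613611 : ℕ) ≤ 113 / 2 := by
  rw [Real.logb_le_iff_le_rpow (by norm_num) (by norm_num)]
  apply (pow_le_pow_iff_left₀ (by positivity) (by positivity) two_ne_zero).1
  rw [← Real.rpow_natCast ((2 : ℝ) ^ (113 / 2 : ℝ)), ← Real.rpow_mul (by norm_num)]
  have : (113 / 2 : ℝ) * (2 : ℕ) = (113 : ℕ) := by norm_num
  rw [this, Real.rpow_natCast]
  norm_num

theorem main : ∃ (p : ℕ) (G : Type) (_ : Group G) (_ : Finite G), p.Prime ∧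
    (∀ g : G, (∀ V : FDRep ℂ G, Simple V → ¬ p ∣ Module.finrank ℂ V →
      V.character g = V.character 1) → g = 1) ∧
    (∃ F : Subgroup G, IsGreatest {N : Subgroup G | N.Normal ∧ Group.IsNilpotent N} F ∧
      p ∣ F.index) ∧
    (Nat.card (ConjClasses G) : ℝ) < p / Real.logb 2 p := by
  have hΩ : Fintype.card (Om KK) = 3 * 96076791871613611 * (2 ^ 29 + 1) := by
    rw [card_Om, qq_KK]; norm_num
  have : Nontrivial (Om KK) := Fintype.one_lt_card_iff_nontrivial.1 (by rw [hΩ]; norm_num)
  have hp : 96076791871613611 ∣ Fintype.card (Om KK) := by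
    rw [hΩ]; exact Dvd.dvd.mul_right (Dvd.intro_left 3 rfl) _
  have h3 : 3 ∣ Fintype.card (Om KK) := by
    rw [hΩ]; exact Dvd.dvd.mul_right (Dvd.intro _ rfl) _
  refine ⟨96076791871613611, GG KK, inferInstance, inferInstance, prime_p, ?_, ?_, ?_⟩
  · intro g hg
    obtain ⟨V, hV, hd, hk⟩ := exists_simple (twoTrans_GG KK)
    apply hk g (hg V hV ?_)
    intro hdvd
    rw [← hd] at hp
    exact prime_p.one_lt.ne' (Nat.dvd_one.1 ((Nat.dvd_add_right hdvd).1 hp))
  · refine ⟨⊥, ⟨⟨inferInstance, inferInstance⟩, ?_⟩, ?_⟩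
    · intro N hN
      exact (nilpotent_normal_eq_bot (twoTrans_GG KK) 3 _ Nat.prime_three prime_p (by norm_num)
        h3 hp N hN.1 hN.2).le
    · rw [Subgroup.index_bot]
      exact hp.trans (card_dvd_of_trans (twoTrans_GG KK))
  · have h := class_number_GG (K := KK) 58 card_gal fix_KK
    rw [qq_KK] at h
    refine lt_of_le_of_lt h ?_
    have hl : 0 < Real.logb 2 (96076791871613611 : ℕ) := Real.logb_pos (by norm_num) (by norm_num)
    refine lt_of_lt_of_le ?_ (div_le_div_of_nonneg_left (by norm_num) hl logb_le)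
    norm_num

end Pool.Agent.MP_18be4d_al

end
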