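import Mathlib

section

/-! An upper bound for the class number of a quotient of a semidirect product. -/

open Finset

namespace Pool.Agent.MP_18be4d_al

open Classical in
/-- order of the centraliser -/
noncomputable def cent {S : Type} [Group S] [Fintype S] (a : S) : ℕ :=
  (univ.filter (fun h : S => h * a = a * h)).card

theorem card_eq_sum_inv_fiber {X Y : Type} [Fintype X] [Fintype Y] [DecidableEq Y] (f : X → Y)
    (hf : Function.Surjective f) :
    (Fintype.card Y : ℝ) = ∑ x : X, 1 / ((univ.filter (fun y => f y = f x)).card : ℝ) := by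
  rw [← Finset.sum_fiberwise (s := univ) (g := f)]
  rw [← Finset.card_univ, Finset.card_eq_sum_ones]
  push_cast
  apply Finset.sum_congr rfl
  intro y _
  have : ∀ x ∈ univ.filter (fun x => f x = y),
      1 / ((univ.filter (fun z => f z = f x)).card : ℝ) =
      1 / ((univ.filter (fun z => f z = y)).card : ℝ) := by
    intro x hx
    rw [(Finset.mem_filter.1 hx).2]
  rw [Finset.sum_congr rfl this, Finset.sum_const, nsmul_eq_mul]
  obtain ⟨x, hx⟩ := hf y
  have : (0 : ℝ) < ((univ.filter (fun z => f z = y)).card : ℝ) := by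
    exact_mod_cast Finset.card_pos.2 ⟨x, by simp [hx]⟩
  field_simp

open Classical in
theorem card_twisted_le {S : Type} [Group S] [Fintype S] (g k : S) :
    (univ.filter (fun h : S => g * h = h * k)).card ≤ cent g := by
  rcases (univ.filter (fun h : S => g * h = h * k)).eq_empty_or_nonempty with h0 | ⟨h0, hh0⟩
  · simp [h0]
  · have e0 : g * h0 = h0 * k := by simpa using hh0
    apply Finset.card_le_card_of_injOn (fun h => h * h0⁻¹)
    · intro h hh
      have e : g * h = h * k := by simpa using hh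
      simp only [coe_filter, mem_univ, true_and, Set.mem_ofPred_eq]
      have : k = h0⁻¹ * g * h0 := by rw [mul_assoc, e0]; group
      rw [← mul_assoc, e, this]; group
    · intro a _ b _ hab
      simpa using hab

open Classical in
theorem card_le_mul_fiber {X Y : Type} [Fintype X] (Φ : X → Y) (T : Finset Y) (m : ℕ)
    (hT : ∀ x, Φ x ∈ T) (hm : ∀ x₀, (univ.filter (fun x => Φ x = Φ x₀)).card ≤ m) :
    Fintype.card X ≤ m * T.card := by
  rw [← Finset.card_univ]
  apply le_trans (Finset.card_le_mul_card_image (f := Φ) univ m _)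
  · apply Nat.mul_le_mul_left
    apply Finset.card_le_card
    intro y hy
    obtain ⟨x, -, rfl⟩ := Finset.mem_image.1 hy
    exact hT x
  · intro b hb
    obtain ⟨x, -, rfl⟩ := Finset.mem_image.1 hb
    exact hm x

open SemidirectProduct Classical in
theorem class_number_le {S A G : Type} [Group S] [Group A] [Group G] [Fintype S] [Fintype A]
    [Finite G] (φ : A →* MulAut S) (π : S ⋊[φ] A →* G) (hπ : Function.Surjective π)
    (Z : Finset S) (hZ : ∀ z ∈ Z, π (inl z) = 1) (hZ0 : Z.Nonempty) (good : S → Prop) (m : ℕ)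
    (H1 : ∀ a, good a → ∀ (g g' : S) (σ σ' : A), ∀ z ∈ Z, ∀ z' ∈ Z,
      z * (g * φ σ a * g⁻¹) = z' * (g' * φ σ' a * g'⁻¹) → σ = σ' ∧ z = z')
    (H2 : ∀ a, good a → ∀ σ : A, cent (φ σ a) ≤ m)
    (H3 : ∀ a, good a → ∀ σ : A, σ ≠ 1 → ∀ h : S, a * h ≠ h * φ σ a) :
    (Nat.card (ConjClasses G) : ℝ) ≤ (m : ℝ) / (Z.card * Fintype.card A) +
      (Fintype.card A + 1) * (∑ a ∈ univ.filter (fun a => ¬ good a), (cent a : ℝ)) /
        Fintype.card S := by
  have : Fintype (S ⋊[φ] A) := Fintype.ofEquiv _ (SemidirectProduct.equivProd).symm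
  have : Fintype G := Fintype.ofFinite G
  have : Fintype (ConjClasses G) := Fintype.ofFinite _
  let f : S ⋊[φ] A → ConjClasses G := fun x => ConjClasses.mk (π x)
  have hf : Function.Surjective f := ConjClasses.mk_surjective.comp hπ
  let fib : S ⋊[φ] A → ℕ := fun x => (univ.filter (fun y => f y = f x)).card
  have hfib : ∀ x, (0 : ℝ) < fib x := by
    intro x
    exact_mod_cast Finset.card_pos.2 ⟨x, by simp⟩
  have hconj : ∀ x y : S ⋊[φ] A, f (y * x * y⁻¹) = f x := by
    intro x y
    simp only [f, map_mul, map_inv]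
    rw [ConjClasses.mk_eq_mk_iff_isConj]
    exact (isConj_iff.2 ⟨π y, rfl⟩).symm
  have hS : (0 : ℝ) < Fintype.card S := by exact_mod_cast Fintype.card_pos
  have hA : (0 : ℝ) < Fintype.card A := by exact_mod_cast Fintype.card_pos
  have hZc : (0 : ℝ) < Z.card := by exact_mod_cast Finset.card_pos.2 hZ0
  let c : S ⋊[φ] A → ℕ := fun x =>
    (univ.filter (fun g : S => g * x.left = x.left * φ x.right g)).card
  -- good elements
  have B1 : ∀ a, good a → 1 / (fib (inl a) : ℝ) ≤
      m / (Z.card * Fintype.card A) / Fintype.card S := by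
    intro a ha
    have := card_le_mul_fiber (X := S × A × Z)
      (fun u => (inl (u.2.2.1 * (u.1 * φ u.2.1 a * u.1⁻¹)) : S ⋊[φ] A))
      (univ.filter (fun y => f y = f (inl a))) m ?_ ?_
    · simp only [Fintype.card_prod, Fintype.card_coe] at this
      have h2 : (Fintype.card S : ℝ) * (Fintype.card A * Z.card) ≤ m * fib (inl a) := by
        exact_mod_cast this
      rw [div_div, div_le_div_iff₀ (hfib _) (by positivity)]
      linarith
    · rintro ⟨g, σ, z, hz⟩
      simp only [mem_filter, mem_univ, true_and]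
      rw [← hconj (inl a) (inl g * inr σ)]
      have : (inl g * inr σ) * inl a * (inl g * inr σ)⁻¹ =
          (inl (g * φ σ a * g⁻¹) : S ⋊[φ] A) := by
        rw [map_mul, map_mul, inl_aut, map_inv, map_inv]; group
      rw [this]
      simp only [f]
      rw [map_mul (inl : S →* S ⋊[φ] A), map_mul π, hZ z hz, one_mul]
    · rintro ⟨g', σ', z', hz'⟩
      refine le_trans ?_ (H2 a ha σ')
      apply Finset.card_le_card_of_injOn (fun u => g'⁻¹ * u.1)
      · rintro ⟨g, σ, z, hz⟩ hu
        simp only [coe_filter, mem_univ, true_and, Set.mem_ofPred_eq] at hu ⊢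
        have hu' := inl_injective hu
        obtain ⟨rfl, rfl⟩ := H1 a ha g g' σ σ' z hz z' hz' hu'
        have h3 := mul_left_cancel hu'
        calc g'⁻¹ * g * φ σ a = g'⁻¹ * (g * φ σ a * g⁻¹) * g := by group
          _ = _ := by rw [h3]; group
      · rintro ⟨g, σ, z, hz⟩ hu ⟨g₂, σ₂, z₂, hz₂⟩ hu₂ he
        simp only [coe_filter, mem_univ, true_and, Set.mem_ofPred_eq] at hu hu₂ he
        obtain ⟨rfl, rfl⟩ := H1 a ha g g' σ σ' z hz z' hz' (inl_injective hu)
        obtain ⟨rfl, rfl⟩ := H1 a ha g₂ g' σ₂ σ z₂ hz₂ z hz (inl_injective hu₂)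
        rw [mul_left_cancel he]
  -- arbitrary elements
  have B2 : ∀ x, 1 / (fib x : ℝ) ≤ c x / Fintype.card S := by
    intro x
    have := card_le_mul_fiber (X := S) (fun g => (inl g * x * (inl g)⁻¹ : S ⋊[φ] A))
      (univ.filter (fun y => f y = f x)) (c x) ?_ ?_
    · have h2 : (Fintype.card S : ℝ) ≤ c x * fib x := by exact_mod_cast this
      rw [div_le_div_iff₀ (hfib _) hS]
      linarith
    · intro g
      simp only [mem_filter, mem_univ, true_and]
      exact hconj _ _
    · intro g'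
      apply Finset.card_le_card_of_injOn (fun g => g'⁻¹ * g)
      · intro g hg
        simp only [coe_filter, mem_univ, true_and, Set.mem_ofPred_eq] at hg ⊢
        have h3 : (inl (g'⁻¹ * g) * x : S ⋊[φ] A) = x * inl (g'⁻¹ * g) := by
          rw [map_mul, map_inv]
          calc (inl g')⁻¹ * inl g * x = (inl g')⁻¹ * (inl g * x * (inl g)⁻¹) * inl g := by group
            _ = _ := by rw [hg]; group
        have := congrArg SemidirectProduct.left h3
        simpa using this
      · intro a _ b _ hab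
        simpa using hab
  rw [Nat.card_eq_fintype_card, card_eq_sum_inv_fiber f hf]
  change ∑ x, 1 / (fib x : ℝ) ≤ _
  rw [← (SemidirectProduct.equivProd (φ := φ)).symm.sum_comp, Fintype.sum_prod_type_right]
  rw [← Finset.add_sum_erase univ _ (mem_univ (1 : A))]
  rw [← Finset.sum_filter_add_sum_filter_not univ good]
  have P1 : ∑ a ∈ univ.filter good, 1 / (fib (SemidirectProduct.equivProd.symm (a, 1)) : ℝ) ≤
      m / (Z.card * Fintype.card A) := by
    apply le_trans (Finset.sum_le_card_nsmul _ _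
      ((m : ℝ) / (Z.card * Fintype.card A) / Fintype.card S) _)
    · rw [nsmul_eq_mul]
      have : ((univ.filter good).card : ℝ) ≤ Fintype.card S := by
        exact_mod_cast Finset.card_filter_le _ _
      calc _ ≤ (Fintype.card S : ℝ) * ((m : ℝ) / (Z.card * Fintype.card A) / Fintype.card S) := by
            gcongr
        _ = _ := by field_simp
    · intro a ha
      exact B1 a (mem_filter.1 ha).2
  have P2 : ∑ a ∈ univ.filter (fun a => ¬ good a),
      1 / (fib (SemidirectProduct.equivProd.symm (a, 1)) : ℝ) ≤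
      (∑ a ∈ univ.filter (fun a => ¬ good a), (cent a : ℝ)) / Fintype.card S := by
    rw [Finset.sum_div]
    apply Finset.sum_le_sum
    intro a _
    apply le_trans (B2 _)
    simp [c, cent, SemidirectProduct.equivProd]
  have P3 : ∀ σ ∈ univ.erase (1 : A),
      ∑ a : S, 1 / (fib (SemidirectProduct.equivProd.symm (a, σ)) : ℝ) ≤
      (∑ a ∈ univ.filter (fun a => ¬ good a), (cent a : ℝ)) / Fintype.card S := by
    intro σ hσ
    apply le_trans (Finset.sum_le_sum (fun a _ => B2 _))
    rw [← Finset.sum_div]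
    gcongr
    have e1 : ∑ a : S, c (SemidirectProduct.equivProd.symm (a, σ)) =
        ∑ g : S, (univ.filter (fun h : S => g * h = h * φ σ g)).card := by
      simp only [c, SemidirectProduct.equivProd, Equiv.coe_fn_symm_mk, Finset.card_filter]
      exact Finset.sum_comm
    have e2 : ∑ g : S, (univ.filter (fun h : S => g * h = h * φ σ g)).card ≤
        ∑ a ∈ univ.filter (fun a => ¬ good a), cent a := by
      rw [Finset.sum_filter]
      apply Finset.sum_le_sum
      intro g _
      split_ifs with hg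
      · simp only [nonpos_iff_eq_zero, card_eq_zero, filter_eq_empty_iff]
        intro h _
        exact H3 g hg σ (ne_of_mem_erase hσ) h
      · exact card_twisted_le _ _
    exact_mod_cast e1.le.trans e2
  have P4 := Finset.sum_le_card_nsmul _ _ _ P3
  rw [nsmul_eq_mul] at P4
  have P5 : ((univ.erase (1 : A)).card : ℝ) ≤ Fintype.card A := by
    exact_mod_cast Finset.card_le_univ _
  have P6 : 0 ≤ (∑ a ∈ univ.filter (fun a => ¬ good a), (cent a : ℝ)) / Fintype.card S := by
    positivity
  have P7 := mul_le_mul_of_nonneg_right P5 P6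
  rw [mul_div_assoc]
  linarith

open Classical in
/-- elements conjugate into a set of representatives -/
theorem sum_cent_le {S : Type} [Group S] [Fintype S] (E R : Finset S)
    (h : ∀ a ∈ E, ∃ r ∈ R, ∃ g : S, a = g * r * g⁻¹) :
    ∑ a ∈ E, cent a ≤ R.card * Fintype.card S := by
  have key : ∀ r : S, ∑ a ∈ univ.filter (fun a => ∃ g : S, a = g * r * g⁻¹), cent a ≤
      Fintype.card S := by
    intro r
    rw [← Finset.card_univ, Finset.card_eq_sum_card_fiberwise
      (f := fun g : S => g * r * g⁻¹) (t := univ.filter (fun a => ∃ g : S, a = g * r * g⁻¹))]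
    · apply Finset.sum_le_sum
      intro a ha
      obtain ⟨g, rfl⟩ := (mem_filter.1 ha).2
      apply Finset.card_le_card_of_injOn (fun h => h * g)
      · intro h hh
        simp only [coe_filter, mem_univ, true_and, Set.mem_ofPred_eq] at hh ⊢
        calc h * g * r * (h * g)⁻¹ = h * (g * r * g⁻¹) * h⁻¹ := by group
          _ = _ := by rw [hh]; group
      · intro a _ b _ hab
        simpa using hab
    · intro g _
      simp only [coe_filter, mem_univ, true_and, Set.mem_ofPred_eq]
      exact ⟨g, rfl⟩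
  calc ∑ a ∈ E, cent a ≤ ∑ a ∈ E, ∑ r ∈ R, if (∃ g : S, a = g * r * g⁻¹) then cent a else 0 := by
        apply Finset.sum_le_sum
        intro a ha
        obtain ⟨r, hr, g, hg⟩ := h a ha
        refine le_trans ?_ (Finset.single_le_sum (fun _ _ => Nat.zero_le _) hr)
        rw [if_pos ⟨g, hg⟩]
    _ ≤ ∑ a, ∑ r ∈ R, if (∃ g : S, a = g * r * g⁻¹) then cent a else 0 :=
        Finset.sum_le_sum_of_subset (subset_univ _)
    _ = ∑ r ∈ R, ∑ a ∈ univ.filter (fun a => ∃ g : S, a = g * r * g⁻¹), cent a := by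
        rw [Finset.sum_comm]
        simp only [Finset.sum_filter]
    _ ≤ ∑ r ∈ R, Fintype.card S := Finset.sum_le_sum (fun r _ => key r)
    _ = _ := by simp

end Pool.Agent.MP_18be4d_al

end

section

/-! Finite fields of order `q ^ 2` with `q = 2 ^ f`, `f` odd. -/

open Finset

set_option linter.unusedSectionVars false

namespace Pool.Agent.MP_18be4d_al

/-- a finite field of order `(2 ^ f) ^ 2` with `f` odd -/
class UF (K : Type) [Field K] [Fintype K] where
  f : ℕ
  char2 : CharP K 2
  card_eq : Fintype.card K = (2 ^ f) ^ 2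
  odd_f : Odd f

attribute [instance] UF.char2

variable {K : Type} [Field K] [Fintype K] [UF K]

variable (K) in
/-- `q` -/
def qq : ℕ := 2 ^ UF.f K

/-- the involution `x ↦ x ^ q` -/
def bar : K →+* K := iterateFrobenius K 2 (UF.f K)

theorem bar_apply (x : K) : bar x = x ^ qq K := iterateFrobenius_def ..

variable (K) in
theorem card_K : Fintype.card K = qq K ^ 2 := UF.card_eq

variable (K) in
theorem two_le_qq : 2 ≤ qq K := by
  obtain ⟨k, hk⟩ := UF.odd_f (K := K)
  rw [qq, hk, pow_succ]
  have : 1 ≤ 2 ^ (2 * k) := Nat.one_le_two_pow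
  omega

variable (K) in
theorem qq_mod_three : qq K % 3 = 2 := by
  obtain ⟨k, hk⟩ := UF.odd_f (K := K)
  rw [qq, hk, pow_succ, pow_mul, Nat.mul_mod, Nat.pow_mod]
  norm_num

@[simp] theorem bar_bar (x : K) : bar (bar x) = x := by
  rw [bar_apply, bar_apply, ← pow_mul, ← sq, ← card_K, FiniteField.pow_card]

variable (K) in
theorem two_eq_zero : (2 : K) = 0 := CharTwo.two_eq_zero

theorem bar_eq_zero {x : K} : bar x = 0 ↔ x = 0 := map_eq_zero bar

theorem bar_of_cube {z : K} (h : z ^ 3 = 1) : bar z = z ^ 2 := by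
  rw [bar_apply, ← Nat.div_add_mod (qq K) 3, qq_mod_three, pow_add, pow_mul, h, one_pow, one_mul]

theorem mul_bar_of_cube {z : K} (h : z ^ 3 = 1) : z * bar z = 1 := by
  rw [bar_of_cube h, ← h]; ring

variable (K) in
theorem exists_omega : ∃ w : K, w ^ 2 + w + 1 = 0 := by
  classical
  have h3 : 3 ∣ Fintype.card Kˣ := by
    rw [Fintype.card_units, card_K]
    have h := qq_mod_three K
    have h2 : qq K ^ 2 % 3 = 1 := by rw [Nat.pow_mod, h]
    omega
  have : Fact (Nat.Prime 3) := ⟨Nat.prime_three⟩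
  obtain ⟨u, hu⟩ := exists_prime_orderOf_dvd_card 3 h3
  have h1 : (u : K) ^ 3 = 1 := by
    rw [← Units.val_pow_eq_pow_val, ← hu, pow_orderOf_eq_one, Units.val_one]
  have h2 : (u : K) ≠ 1 := by
    intro h
    have : u = 1 := Units.ext h
    rw [this, orderOf_one] at hu
    omega
  refine ⟨u, ?_⟩
  have : ((u : K) - 1) * ((u : K) ^ 2 + u + 1) = 0 := by linear_combination h1
  exact (mul_eq_zero.1 this).resolve_left (sub_ne_zero.2 h2)

variable (K) in
/-- a primitive cube root of unity -/
noncomputable def om : K := (exists_omega K).choose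

theorem om_spec : om K ^ 2 + om K + 1 = 0 := (exists_omega K).choose_spec

theorem om_cube : om K ^ 3 = 1 := by linear_combination (om K - 1) * om_spec (K := K)

theorem om_add_bar : om K + bar (om K) + 1 = 0 := by
  rw [bar_of_cube om_cube]; linear_combination om_spec (K := K)

theorem om_ne_one : om K ≠ 1 := by
  intro h
  have h1 := om_spec (K := K)
  rw [h] at h1
  have : (1 : K) = 0 := by linear_combination h1 - two_eq_zero K
  exact one_ne_zero this

theorem sq_inj {x y : K} (h : x ^ 2 = y ^ 2) : x = y := by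
  have : (x - y) ^ 2 = 0 := by linear_combination h + (y ^ 2 - x * y) * two_eq_zero K
  exact sub_eq_zero.1 (pow_eq_zero_iff (by norm_num) |>.1 this)

theorem exists_sqrt (x : K) : ∃ y : K, y ^ 2 = x := by
  have : Function.Surjective (fun y : K => y ^ 2) :=
    Finite.surjective_of_injective (fun a b h => sq_inj h)
  exact this x

theorem exists_sqrt_fixed (x : K) (hx : bar x = x) : ∃ y : K, y ^ 2 = x ∧ bar y = y := by
  obtain ⟨y, hy⟩ := exists_sqrt x
  refine ⟨y, hy, sq_inj ?_⟩
  rw [← map_pow, hy, hx]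

theorem card_pow_eq_one_le {L : Type} [Field L] (n : ℕ) (hn : 0 < n) (s : Finset L)
    (hs : ∀ x ∈ s, x ^ n = 1) : s.card ≤ n := by
  classical
  calc s.card ≤ (Polynomial.nthRoots n (1 : L)).toFinset.card := by
        apply Finset.card_le_card
        intro x hx
        rw [Multiset.mem_toFinset, Polynomial.mem_nthRoots hn]
        exact hs x hx
    _ ≤ Multiset.card (Polynomial.nthRoots n (1 : L)) := Multiset.toFinset_card_le _
    _ ≤ n := Polynomial.card_nthRoots n 1

open Classical in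
variable (K) in
/-- the fixed field of the involution -/
noncomputable def FF : Finset K := univ.filter (fun x => bar x = x)

theorem mem_FF {x : K} : x ∈ FF K ↔ bar x = x := by simp [FF]

variable (K) in
theorem card_FF : (FF K).card = qq K := by
  classical
  have hq := two_le_qq K
  apply le_antisymm
  · have h1 : ((FF K).erase 0).card ≤ qq K - 1 := by
      apply card_pow_eq_one_le _ (by omega)
      intro x hx
      have h0 := ne_of_mem_erase hx
      have h1 := mem_FF.1 (mem_of_mem_erase hx)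
      rw [bar_apply] at h1
      apply mul_left_cancel₀ h0
      rw [← pow_succ', mul_one, Nat.sub_add_cancel (by omega), h1]
    have h2 : (0 : K) ∈ FF K := mem_FF.2 (map_zero _)
    rw [card_erase_of_mem h2] at h1
    omega
  · have := card_le_mul_fiber (fun x : K => x + bar x) (FF K) (FF K).card ?_ ?_
    · rw [card_K, ← sq] at this
      exact (Nat.pow_le_pow_iff_left (by norm_num)).1 this
    · intro x
      rw [mem_FF, map_add, bar_bar, add_comm]
    · intro x₀
      apply Finset.card_le_card_of_injOn (fun x => x - x₀)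
      · intro x hx
        simp only [coe_filter, mem_univ, true_and, Set.mem_ofPred_eq] at hx
        rw [mem_coe, mem_FF, map_sub]
        linear_combination hx + (x₀ - x) * two_eq_zero K
      · intro a _ b _ hab
        simpa using hab

open Classical in
variable (K) in
/-- elements of norm one -/
noncomputable def UU : Finset K := univ.filter (fun x => x * bar x = 1)

theorem mem_UU {x : K} : x ∈ UU K ↔ x * bar x = 1 := by simp [UU]

variable (K) in
theorem card_UU : (UU K).card ≤ qq K + 1 := by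
  apply card_pow_eq_one_le _ (by omega)
  intro x hx
  rw [pow_succ', ← bar_apply, mem_UU.1 hx]

open Classical in
variable (K) in
/-- cube roots of unity -/
noncomputable def ZZ : Finset K := univ.filter (fun x => x ^ 3 = 1)

theorem mem_ZZ {x : K} : x ∈ ZZ K ↔ x ^ 3 = 1 := by simp [ZZ]

variable (K) in
theorem card_ZZ : (ZZ K).card = 3 := by
  classical
  apply le_antisymm
  · exact card_pow_eq_one_le _ (by omega) _ (fun x hx => mem_ZZ.1 hx)
  · have h0 : om K ≠ 0 := by
      intro h
      have := om_cube (K := K)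
      rw [h] at this
      simp at this
    have h1 : (1 : K) ≠ om K := om_ne_one.symm
    have h2 : (1 : K) ≠ om K ^ 2 := by
      intro h
      exact h1 (sq_inj (by rw [← h]; ring))
    have h3 : om K ≠ om K ^ 2 := by
      intro h
      apply h1
      apply mul_left_cancel₀ h0
      rw [mul_one, ← sq, ← h]
    rw [← Finset.card_eq_three.2 ⟨_, _, _, h1, h2, h3, rfl⟩]
    apply Finset.card_le_card
    intro x hx
    rw [mem_ZZ]
    simp only [mem_insert, mem_singleton] at hx
    rcases hx with rfl | rfl | rfl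
    · simp
    · exact om_cube
    · rw [← pow_mul, mul_comm, pow_mul, om_cube, one_pow]

open Classical in
variable (K) in
/-- parameters of the unipotent radical -/
noncomputable def PP : Finset (K × K) :=
  univ.filter (fun x => x.2 + bar x.2 + x.1 * bar x.1 = 0)

theorem mem_PP {x : K × K} : x ∈ PP K ↔ x.2 + bar x.2 + x.1 * bar x.1 = 0 := by simp [PP]

theorem om_mem_PP (b : K) : (b, b * bar b * om K) ∈ PP K := by
  rw [mem_PP]
  simp only [map_mul, bar_bar]
  linear_combination (b * bar b) * om_add_bar (K := K)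

variable (K) in
theorem card_PP : (PP K).card = qq K ^ 3 := by
  classical
  have : (PP K).card = ((univ : Finset K) ×ˢ FF K).card := by
    apply Finset.card_nbij' (fun x => (x.1, x.2 - x.1 * bar x.1 * om K))
      (fun x => (x.1, x.2 + x.1 * bar x.1 * om K))
    · intro x hx
      rw [mem_coe, mem_PP] at hx
      simp only [coe_product, coe_univ, Set.mem_prod, Set.mem_univ, mem_coe, mem_FF, true_and,
        map_sub, map_mul, bar_bar]
      linear_combination hx - (x.1 * bar x.1) * om_add_bar (K := K) +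
        (x.1 * bar x.1 * om K - x.2) * two_eq_zero K
    · intro x hx
      simp only [coe_product, coe_univ, Set.mem_prod, Set.mem_univ, mem_coe, mem_FF,
        true_and] at hx
      rw [mem_coe, mem_PP]
      simp only [map_add, map_mul, bar_bar]
      linear_combination hx + (x.1 * bar x.1) * om_add_bar (K := K) + x.2 * two_eq_zero K
    · intro x _
      simp
    · intro x _
      simp
  rw [this, card_product, card_univ, card_K, card_FF]; ring

end Pool.Agent.MP_18be4d_al

end

section

/-! The special unitary group in dimension three. -/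

open Finset Matrix

set_option linter.unusedSectionVars false

namespace Pool.Agent.MP_18be4d_al

/-- the Gram matrix -/
def JJ (R : Type) [Zero R] [One R] : Matrix (Fin 3) (Fin 3) R := !![0, 0, 1; 0, 1, 0; 1, 0, 0]

variable {K : Type} [Field K] [Fintype K] [UF K]

/-- the Hermitian form -/
def HF (u v : Fin 3 → K) : K := u 0 * bar (v 2) + u 1 * bar (v 1) + u 2 * bar (v 0)

/-- unitary matrices -/
def IsU (M : Matrix (Fin 3) (Fin 3) K) : Prop := Mᵀ * JJ K * M.map bar = JJ K

theorem isU_one : IsU (1 : Matrix (Fin 3) (Fin 3) K) := by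
  rw [IsU, transpose_one, Matrix.map_one _ (map_zero _) (map_one _), Matrix.mul_one,
    Matrix.one_mul]

theorem isU_mul {a b : Matrix (Fin 3) (Fin 3) K} (ha : IsU a) (hb : IsU b) : IsU (a * b) := by
  simp only [IsU, transpose_mul, Matrix.map_mul] at ha hb ⊢
  calc bᵀ * aᵀ * JJ K * (a.map bar * b.map bar)
      = bᵀ * (aᵀ * JJ K * a.map bar) * b.map bar := by simp only [Matrix.mul_assoc]
    _ = JJ K := by rw [ha, hb]

theorem isU_inv {a b : Matrix (Fin 3) (Fin 3) K} (ha : IsU a) (h1 : a * b = 1) : IsU b := by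
  simp only [IsU] at ha ⊢
  calc bᵀ * JJ K * b.map bar = bᵀ * (aᵀ * JJ K * a.map bar) * b.map bar := by rw [ha]
    _ = (a * b)ᵀ * JJ K * (a * b).map bar := by
        simp only [transpose_mul, Matrix.map_mul, Matrix.mul_assoc]
    _ = JJ K := by rw [h1]; exact isU_one

variable (K) in
/-- the special unitary group -/
def SU : Subgroup (SpecialLinearGroup (Fin 3) K) where
  carrier := {a | IsU a.1}
  one_mem' := isU_one
  mul_mem' := fun ha hb => isU_mul ha hb
  inv_mem' := fun {a} ha => isU_inv ha (congrArg Subtype.val (mul_inv_cancel a))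

noncomputable instance : Fintype (SU K) := by
  classical
  exact Fintype.ofFinite _

/-- the matrix of a unitary element -/
def mat (a : SU K) : Matrix (Fin 3) (Fin 3) K := a.1.1

theorem mat_mul (a b : SU K) : mat (a * b) = mat a * mat b := rfl

theorem mat_one : mat (1 : SU K) = 1 := rfl

theorem mat_inj {a b : SU K} (h : mat a = mat b) : a = b := Subtype.ext (Subtype.ext h)

theorem det_mat (a : SU K) : (mat a).det = 1 := a.1.2

theorem mat_unit (a : SU K) : (mat a)ᵀ * JJ K * (mat a).map bar = JJ K := a.2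

theorem mat_mul_inv (a : SU K) : mat a * mat a⁻¹ = 1 := by rw [← mat_mul, mul_inv_cancel, mat_one]

theorem mat_inv_mul (a : SU K) : mat a⁻¹ * mat a = 1 := by rw [← mat_mul, inv_mul_cancel, mat_one]

theorem mat_inv (a : SU K) : mat a⁻¹ = adjugate (mat a) := rfl

/-- constructor -/
def mkSU (M : Matrix (Fin 3) (Fin 3) K) (h1 : M.det = 1) (h2 : Mᵀ * JJ K * M.map bar = JJ K) :
    SU K := ⟨⟨M, h1⟩, h2⟩

@[simp] theorem mat_mkSU (M : Matrix (Fin 3) (Fin 3) K) (h1 : M.det = 1)
    (h2 : Mᵀ * JJ K * M.map bar = JJ K) : mat (mkSU M h1 h2) = M := rfl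

theorem unit_apply (M : Matrix (Fin 3) (Fin 3) K) (i j : Fin 3) :
    (Mᵀ * JJ K * M.map bar) i j =
      M 0 i * bar (M 2 j) + M 1 i * bar (M 1 j) + M 2 i * bar (M 0 j) := by
  simp [Matrix.mul_apply, Fin.sum_univ_three, JJ]
  ring

theorem unit_entry (a : SU K) (i j : Fin 3) :
    mat a 0 i * bar (mat a 2 j) + mat a 1 i * bar (mat a 1 j) + mat a 2 i * bar (mat a 0 j) =
      JJ K i j := by
  rw [← unit_apply, mat_unit]

theorem HF_mat (a : SU K) (u v : Fin 3 → K) : HF (mat a *ᵥ u) (mat a *ᵥ v) = HF u v := by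
  have h00 := unit_entry a 0 0
  have h01 := unit_entry a 0 1
  have h02 := unit_entry a 0 2
  have h10 := unit_entry a 1 0
  have h11 := unit_entry a 1 1
  have h12 := unit_entry a 1 2
  have h20 := unit_entry a 2 0
  have h21 := unit_entry a 2 1
  have h22 := unit_entry a 2 2
  simp [JJ] at h00 h01 h02 h10 h11 h12 h20 h21 h22
  simp only [HF, mulVec, dotProduct, Fin.sum_univ_three, map_add, map_mul]
  linear_combination u 0 * bar (v 0) * h00 + u 0 * bar (v 1) * h01 + u 0 * bar (v 2) * h02 +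
    u 1 * bar (v 0) * h10 + u 1 * bar (v 1) * h11 + u 1 * bar (v 2) * h12 +
    u 2 * bar (v 0) * h20 + u 2 * bar (v 1) * h21 + u 2 * bar (v 2) * h22

theorem HF_smul_left (c : K) (u v : Fin 3 → K) : HF (c • u) v = c * HF u v := by
  simp only [HF, Pi.smul_apply, smul_eq_mul]; ring

theorem HF_smul_right (c : K) (u v : Fin 3 → K) : HF u (c • v) = bar c * HF u v := by
  simp only [HF, Pi.smul_apply, smul_eq_mul, map_mul]; ring

theorem HF_add_left (u u' v : Fin 3 → K) : HF (u + u') v = HF u v + HF u' v := by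
  simp only [HF, Pi.add_apply]; ring

theorem HF_add_right (u v v' : Fin 3 → K) : HF u (v + v') = HF u v + HF u v' := by
  simp only [HF, Pi.add_apply, map_add]; ring

theorem HF_sub_left (u u' v : Fin 3 → K) : HF (u - u') v = HF u v - HF u' v := by
  simp only [HF, Pi.sub_apply]; ring

theorem bar_HF (u v : Fin 3 → K) : bar (HF u v) = HF v u := by
  simp only [HF, map_add, map_mul, bar_bar]; ring

/-- unipotent elements -/
def uu (b c : K) (h : (b, c) ∈ PP K) : SU K :=
  mkSU !![1, -bar b, c; 0, 1, b; 0, 0, 1] (by simp [det_fin_three]) (by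
    have h' := mem_PP.1 h
    ext i j
    rw [unit_apply]
    fin_cases i <;> fin_cases j <;> simp [JJ]
    linear_combination h')

/-- torus elements -/
def tt (l : K) (h : l ≠ 0) : SU K :=
  mkSU !![l, 0, 0; 0, bar l * l⁻¹, 0; 0, 0, (bar l)⁻¹] (by
    have h' : bar l ≠ 0 := fun h0 => h (bar_eq_zero.1 h0)
    simp [det_fin_three]
    field_simp) (by
    have h' : bar l ≠ 0 := fun h0 => h (bar_eq_zero.1 h0)
    ext i j
    rw [unit_apply]
    fin_cases i <;> fin_cases j <;> simp [JJ, h, h']
    field_simp)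

variable (K) in
/-- the Weyl element -/
def ww : SU K :=
  mkSU !![0, 0, 1; 0, -1, 0; 1, 0, 0] (by simp [det_fin_three]) (by
    ext i j
    rw [unit_apply]
    fin_cases i <;> fin_cases j <;> simp [JJ])

/-- scalar elements -/
def zz (z : K) (h : z ^ 3 = 1) : SU K :=
  mkSU (z • (1 : Matrix (Fin 3) (Fin 3) K)) (by simp [h]) (by
    have h' := mul_bar_of_cube h
    ext i j
    rw [unit_apply]
    fin_cases i <;> fin_cases j <;> simp [JJ, h'])

theorem mat_uu (b c : K) (h : (b, c) ∈ PP K) :
    mat (uu b c h) = !![1, -bar b, c; 0, 1, b; 0, 0, 1] := rfl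

theorem mat_tt (l : K) (h : l ≠ 0) :
    mat (tt l h) = !![l, 0, 0; 0, bar l * l⁻¹, 0; 0, 0, (bar l)⁻¹] := rfl

theorem mat_ww : mat (ww K) = !![0, 0, 1; 0, -1, 0; 1, 0, 0] := rfl

theorem mat_zz (z : K) (h : z ^ 3 = 1) : mat (zz z h) = z • (1 : Matrix (Fin 3) (Fin 3) K) := rfl

/-- first basis vector -/
def e0 (K : Type) [Zero K] [One K] : Fin 3 → K := ![1, 0, 0]

/-- last basis vector -/
def e2 (K : Type) [Zero K] [One K] : Fin 3 → K := ![0, 0, 1]

theorem ww_e0 : mat (ww K) *ᵥ e0 K = e2 K := by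
  ext i; fin_cases i <;> simp [mat_ww, e0, e2, mulVec, dotProduct, Fin.sum_univ_three]

theorem uu_e0 (b c : K) (h : (b, c) ∈ PP K) : mat (uu b c h) *ᵥ e0 K = e0 K := by
  ext i; fin_cases i <;> simp [mat_uu, e0, mulVec, dotProduct, Fin.sum_univ_three]

theorem uu_e2 (b c : K) (h : (b, c) ∈ PP K) : mat (uu b c h) *ᵥ e2 K = ![c, b, 1] := by
  ext i; fin_cases i <;> simp [mat_uu, e2, mulVec, dotProduct, Fin.sum_univ_three]

theorem iso_cases (v : Fin 3 → K) (h0 : v ≠ 0) (hv : HF v v = 0) :
    (∃ d : K, d ≠ 0 ∧ v = d • e0 K) ∨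
      ∃ d : K, d ≠ 0 ∧ ∃ b c : K, (b, c) ∈ PP K ∧ v = d • ![c, b, 1] := by
  by_cases h2 : v 2 = 0
  · left
    have h1 : v 1 = 0 := by
      simp only [HF, h2, map_zero, mul_zero, zero_mul, zero_add, add_zero, mul_eq_zero,
        bar_eq_zero, or_self] at hv
      exact hv
    refine ⟨v 0, ?_, ?_⟩
    · intro h
      apply h0
      ext i; fin_cases i <;> simp [h, h1, h2]
    · ext i; fin_cases i <;> simp [e0, h1, h2]
  · right
    have h2' : bar (v 2) ≠ 0 := fun h0 => h2 (bar_eq_zero.1 h0)
    refine ⟨v 2, h2, v 1 / v 2, v 0 / v 2, ?_, ?_⟩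
    · rw [mem_PP]
      simp only [map_div₀]
      field_simp
      simp only [HF] at hv
      linear_combination hv
    · ext i; fin_cases i <;> simp <;> field_simp

theorem trans_iso (v : Fin 3 → K) (h0 : v ≠ 0) (hv : HF v v = 0) :
    ∃ g : SU K, ∃ d : K, d ≠ 0 ∧ v = d • (mat g *ᵥ e0 K) := by
  rcases iso_cases v h0 hv with ⟨d, hd, h⟩ | ⟨d, hd, b, c, hbc, h⟩
  · exact ⟨1, d, hd, by rw [mat_one, one_mulVec, h]⟩
  · exact ⟨uu b c hbc * ww K, d, hd, by rw [mat_mul, ← mulVec_mulVec, ww_e0, uu_e2, h]⟩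

/-- trace -/
def tr (a : SU K) : K := (mat a).trace

theorem tr_conj (g a : SU K) : tr (g * a * g⁻¹) = tr a := by
  rw [tr, mat_mul, mat_mul, trace_mul_cycle, mat_inv_mul, Matrix.one_mul, tr]

theorem tr_zz_mul (z : K) (h : z ^ 3 = 1) (a : SU K) : tr (zz z h * a) = z * tr a := by
  rw [tr, mat_mul, mat_zz, Matrix.smul_mul, Matrix.one_mul, trace_smul, smul_eq_mul, tr]

theorem JJ_mul_JJ (R : Type) [CommRing R] : JJ R * JJ R = 1 := by
  ext i j
  fin_cases i <;> fin_cases j <;> simp [JJ, Matrix.mul_apply, Fin.sum_univ_three]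

theorem bar_tr (a : SU K) : bar (tr a) = (adjugate (mat a)).trace := by
  have h1 : (mat a).map bar = JJ K * (mat a⁻¹)ᵀ * JJ K := by
    conv_rhs => rw [← mat_unit a]
    rw [mat_unit a]
    calc (mat a).map bar = JJ K * (mat a * mat a⁻¹)ᵀ * JJ K * (mat a).map bar := by
          rw [mat_mul_inv, transpose_one, Matrix.mul_one, JJ_mul_JJ, Matrix.one_mul]
      _ = JJ K * (mat a⁻¹)ᵀ * ((mat a)ᵀ * JJ K * (mat a).map bar) := by
          simp only [transpose_mul, Matrix.mul_assoc]
      _ = _ := by rw [mat_unit]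
  have h2 : bar (tr a) = ((mat a).map bar).trace := by
    simp [tr, trace, map_sum]
  rw [h2, h1, trace_mul_cycle, JJ_mul_JJ, Matrix.one_mul, trace_transpose, mat_inv]

theorem det_sub_three {R : Type} [CommRing R] (M : Matrix (Fin 3) (Fin 3) R) (x : R) :
    (x • (1 : Matrix (Fin 3) (Fin 3) R) - M).det =
      x ^ 3 - M.trace * x ^ 2 + (adjugate M).trace * x - M.det := by
  simp [det_fin_three, adjugate_fin_three, trace_fin_three]
  ring

theorem cayley_three {R : Type} [CommRing R] (M : Matrix (Fin 3) (Fin 3) R) :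
    M * M * M - M.trace • (M * M) + (adjugate M).trace • M -
      M.det • (1 : Matrix (Fin 3) (Fin 3) R) = 0 := by
  ext i j
  fin_cases i <;> fin_cases j <;>
    simp [det_fin_three, adjugate_fin_three, trace_fin_three, Matrix.mul_apply,
      Fin.sum_univ_three] <;> ring

end Pool.Agent.MP_18be4d_al

end

section

/-! Centralisers of regular semisimple elements. -/

open Finset Matrix

set_option linter.unusedSectionVars false

namespace Pool.Agent.MP_18be4d_al

theorem third_index (i j : Fin 3) (h : i ≠ j) : ∃ k : Fin 3, (∀ l, l = i ∨ l = j ∨ l = k) ∧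
    ∀ {L : Type} [CommRing L] (μ : Fin 3 → L), μ 0 * μ 1 * μ 2 = μ i * μ j * μ k := by
  fin_cases i <;> fin_cases j <;> first | exact absurd rfl h | skip
  · exact ⟨2, by decide, fun μ => by simp⟩
  · exact ⟨1, by decide, fun μ => by simp; ring⟩
  · exact ⟨2, by decide, fun μ => by simp; ring⟩
  · exact ⟨0, by decide, fun μ => by simp; ring⟩
  · exact ⟨1, by decide, fun μ => by simp; ring⟩
  · exact ⟨0, by decide, fun μ => by simp; ring⟩

theorem card_torus_le {L : Type} [Field L] (q : ℕ) (hq : 2 ≤ q) (σ : Equiv.Perm (Fin 3))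
    (s : Finset (Fin 3 → L)) (h1 : ∀ μ ∈ s, ∀ j, μ (σ j) * μ j ^ q = 1)
    (h2 : ∀ μ ∈ s, μ 0 * μ 1 * μ 2 = 1) : s.card ≤ (q + 1) ^ 2 := by
  classical
  by_cases hσ : ∀ j, σ j = j
  · have hr : ∀ j, (s.image (fun μ => μ j)).card ≤ q + 1 := by
      intro j
      apply card_pow_eq_one_le _ (by omega)
      intro x hx
      obtain ⟨μ, hμ, rfl⟩ := mem_image.1 hx
      have := h1 μ hμ j
      rw [hσ] at this
      rw [pow_succ', this]
    calc s.card ≤ ((s.image (fun μ => μ 0)) ×ˢ (s.image (fun μ => μ 1))).card := by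
          apply Finset.card_le_card_of_injOn (fun μ => (μ 0, μ 1))
          · intro μ hμ
            simp only [coe_product, coe_image, Set.mem_prod, Set.mem_image]
            exact ⟨⟨μ, hμ, rfl⟩, ⟨μ, hμ, rfl⟩⟩
          · intro μ hμ ν hν he
            simp only [Prod.mk.injEq] at he
            have a1 := h2 μ hμ
            have a2 := h2 ν hν
            have a3 : μ 2 = ν 2 := by
              rw [← he.1, ← he.2] at a2
              calc μ 2 = μ 2 * (μ 0 * μ 1 * ν 2) := by rw [a2, mul_one]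
                _ = (μ 0 * μ 1 * μ 2) * ν 2 := by ring
                _ = ν 2 := by rw [a1, one_mul]
            ext l
            fin_cases l
            · exact he.1
            · exact he.2
            · exact a3
      _ ≤ (q + 1) ^ 2 := by
          rw [card_product, sq]
          exact Nat.mul_le_mul (hr 0) (hr 1)
  · push Not at hσ
    obtain ⟨j, hj⟩ := hσ
    obtain ⟨k, hk1, hk2⟩ := third_index (σ j) j hj
    have hq2 : q ≤ q * q := Nat.le_mul_self q
    obtain ⟨n, hn0, hn1, hn⟩ : ∃ n, 0 < n ∧ n ≤ (q + 1) ^ 2 ∧ ∀ μ ∈ s, μ j ^ n = 1 := by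
      rcases hk1 (σ (σ j)) with h | h | h
      · exact absurd (σ.injective h) hj
      · refine ⟨q * q - 1, by omega, by nlinarith [Nat.sub_le (q * q) 1], fun μ hμ => ?_⟩
        have a1 := h1 μ hμ j
        have a2 := h1 μ hμ (σ j)
        rw [h] at a2
        have x0 : μ j ≠ 0 := left_ne_zero_of_mul_eq_one a2
        apply mul_left_cancel₀ x0
        rw [← pow_succ', Nat.sub_add_cancel (by omega), mul_one]
        calc μ j ^ (q * q) = (μ j * μ (σ j) ^ q) * μ j ^ (q * q) := by rw [a2, one_mul]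
          _ = μ j * (μ (σ j) * μ j ^ q) ^ q := by rw [pow_mul, mul_pow]; ring
          _ = μ j := by rw [a1, one_pow, mul_one]
      · refine ⟨q * q + 1 - q, by omega, by nlinarith [Nat.sub_le (q * q + 1) q], fun μ hμ => ?_⟩
        have a1 := h1 μ hμ j
        have a2 := h1 μ hμ (σ j)
        have a3 := h2 μ hμ
        rw [hk2] at a3
        rw [h] at a2
        have x0 : μ j ^ q ≠ 0 := right_ne_zero_of_mul_eq_one a1
        apply mul_left_cancel₀ x0
        rw [← pow_add, Nat.add_sub_cancel' (by omega), mul_one]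
        have a4 : μ (σ j) ^ q = μ (σ j) * μ j := by
          calc μ (σ j) ^ q = (μ (σ j) * μ j * μ k) * μ (σ j) ^ q := by rw [a3, one_mul]
            _ = μ (σ j) * μ j * (μ k * μ (σ j) ^ q) := by ring
            _ = _ := by rw [a2, mul_one]
        have a5 : μ (σ j) * μ j ^ (q * q + 1) = 1 := by
          calc μ (σ j) * μ j ^ (q * q + 1) = (μ (σ j) * μ j) * μ j ^ (q * q) := by ring
            _ = (μ (σ j) * μ j ^ q) ^ q := by rw [← a4, pow_mul, mul_pow]
            _ = 1 := by rw [a1, one_pow]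
        calc μ j ^ (q * q + 1) = (μ (σ j) * μ j ^ q) * μ j ^ (q * q + 1) := by rw [a1, one_mul]
          _ = (μ (σ j) * μ j ^ (q * q + 1)) * μ j ^ q := by ring
          _ = _ := by rw [a5, one_mul]
    calc s.card ≤ (s.image (fun μ => μ j)).card := by
          rw [Finset.card_image_of_injOn]
          intro μ hμ ν hν he
          simp only at he
          have a1 := h1 μ hμ j
          have a2 := h1 ν hν j
          have a3 := h2 μ hμ
          have a4 := h2 ν hν
          rw [hk2] at a3 a4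
          have b1 : μ (σ j) = ν (σ j) := by
            rw [← he] at a2
            exact mul_right_cancel₀ (right_ne_zero_of_mul_eq_one a1) (a1.trans a2.symm)
          have b2 : μ k = ν k := by
            rw [← he, ← b1] at a4
            exact mul_left_cancel₀ (left_ne_zero_of_mul_eq_one a3) (a3.trans a4.symm)
          ext l
          rcases hk1 l with rfl | rfl | rfl
          · exact b1
          · exact he
          · exact b2
      _ ≤ n := by
          apply card_pow_eq_one_le _ hn0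
          intro x hx
          obtain ⟨μ, hμ, rfl⟩ := mem_image.1 hx
          exact hn μ hμ
      _ ≤ _ := hn1

theorem exists_three_roots {L : Type} [Field L] [IsAlgClosed L] (a b c : L) :
    ∃ x y z : L, x + y + z = a ∧ x * y + x * z + y * z = b ∧ x * y * z = c := by
  let P : Cubic L := ⟨1, -a, b, -c⟩
  have ha : P.a ≠ 0 := one_ne_zero
  have hs : (P.toPoly.map (RingHom.id L)).Splits := IsAlgClosed.splits _
  obtain ⟨x, y, z, h⟩ := (Cubic.splits_iff_roots_eq_three ha).1 hs
  have h1 := Cubic.b_eq_three_roots ha h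
  have h2 := Cubic.c_eq_three_roots ha h
  have h3 := Cubic.d_eq_three_roots ha h
  simp only [P, RingHom.id_apply, one_mul, neg_inj] at h1 h2 h3
  exact ⟨x, y, z, h1.symm, h2.symm, h3.symm⟩

theorem exists_diag {L : Type} [Field L] [IsAlgClosed L] [CharP L 2]
    (M : Matrix (Fin 3) (Fin 3) L) (h : M.trace * (adjugate M).trace ≠ M.det) :
    ∃ (P : Matrix (Fin 3) (Fin 3) L) (l : Fin 3 → L), Function.Injective l ∧ IsUnit P ∧
      M * P = P * diagonal l := by
  obtain ⟨x, y, z, h1, h2, h3⟩ := exists_three_roots M.trace (adjugate M).trace M.det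
  have two : (2 : L) = 0 := CharTwo.two_eq_zero
  have hd : (x - y) * (x - z) * (y - z) ≠ 0 := by
    intro h0
    apply h
    rw [← h1, ← h2, ← h3]
    linear_combination h0 + (x * y ^ 2 + x * y * z + x ^ 2 * z + y * z ^ 2) * two
  have hxy : x ≠ y := fun e => hd (by rw [e]; ring)
  have hxz : x ≠ z := fun e => hd (by rw [e]; ring)
  have hyz : y ≠ z := fun e => hd (by rw [e]; ring)
  let l : Fin 3 → L := ![x, y, z]
  have hl : Function.Injective l := by
    intro i j hij
    fin_cases i <;> fin_cases j <;> simp_all [l] 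
  have hdet : ∀ i, (l i • (1 : Matrix (Fin 3) (Fin 3) L) - M).det = 0 := by
    intro i
    rw [det_sub_three, ← h1, ← h2, ← h3]
    fin_cases i <;> simp [l] <;> ring
  have hv : ∀ i, ∃ v : Fin 3 → L, v ≠ 0 ∧ M *ᵥ v = l i • v := by
    intro i
    obtain ⟨v, hv0, hv⟩ := Matrix.exists_mulVec_eq_zero_iff.2 (hdet i)
    refine ⟨v, hv0, ?_⟩
    rw [sub_mulVec, smul_mulVec, one_mulVec, sub_eq_zero] at hv
    exact hv.symm
  choose v hv0 hv using hv
  have hli : LinearIndependent L v := by
    apply Module.End.eigenvectors_linearIndependent' (Matrix.toLin' M) l hl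
    intro i
    exact ⟨Module.End.mem_eigenspace_iff.2 (by simpa using hv i), hv0 i⟩
  refine ⟨(Matrix.of v)ᵀ, l, hl, ?_, ?_⟩
  · rw [← Matrix.linearIndependent_cols_iff_isUnit]
    exact hli
  · ext i j
    have := congrFun (hv j) i
    simp only [mulVec, dotProduct, Pi.smul_apply, smul_eq_mul] at this
    rw [mul_diagonal, Matrix.mul_apply]
    simp only [transpose_apply, of_apply]
    rw [this, mul_comm]

variable {K : Type} [Field K] [Fintype K] [UF K]

theorem cent_le (a : SU K) (ha : tr a * bar (tr a) ≠ 1) : cent a ≤ (qq K + 1) ^ 2 := by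
  classical
  let L := AlgebraicClosure K
  let ι : K →+* L := algebraMap K L
  have hι : Function.Injective ι := ι.injective
  have : CharP L 2 := charP_of_injective_ringHom hι 2
  let β : L →+* L := iterateFrobenius L 2 (UF.f K)
  have hβ : ∀ x, β x = x ^ qq K := fun x => iterateFrobenius_def ..
  have hβι : ∀ x, β (ι x) = ι (bar x) := fun x => by rw [hβ, bar_apply, map_pow]
  let m : SU K → Matrix (Fin 3) (Fin 3) L := fun h => (mat h).map ι
  have m_mul : ∀ g h, m (g * h) = m g * m h := fun g h => by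
    simp only [m, mat_mul, Matrix.map_mul]
  have m_det : ∀ h, (m h).det = 1 := fun h => by
    have := ι.map_det (mat h)
    rw [det_mat, map_one] at this
    exact this.symm
  have m_unit : ∀ h, (m h)ᵀ * JJ L * (m h).map β = JJ L := fun h => by
    have h1 := congrArg (fun M => M.map ι) (mat_unit h)
    simp only [Matrix.map_mul] at h1
    have hJ : (JJ K).map ι = JJ L := by
      ext i j; fin_cases i <;> fin_cases j <;> simp [JJ]
    have h2 : ((mat h).map bar).map ι = (m h).map β := by
      ext i j; simp [m, hβι]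
    rw [hJ, h2] at h1
    exact h1
  obtain ⟨P, l, hl, hP, hMP⟩ := exists_diag (m a) (by
    have h1 : (m a).trace = ι (tr a) := by simp [m, tr, trace, map_sum]
    have h2 : (adjugate (m a)).trace = ι (bar (tr a)) := by
      rw [bar_tr]
      have := ι.map_adjugate (mat a)
      simp only [RingHom.mapMatrix_apply] at this
      simp only [m]
      rw [← this]
      simp [trace, map_sum]
    rw [h1, h2, m_det, ← map_mul, ← map_one ι]
    exact fun h => ha (hι h))
  have hPd : IsUnit P.det := (Matrix.isUnit_iff_isUnit_det P).1 hP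
  let μ : SU K → Fin 3 → L := fun h i => (P⁻¹ * m h * P) i i
  have hdiag : ∀ h : SU K, h * a = a * h → m h * P = P * diagonal (μ h) := by
    intro h hh
    have e1 : (P⁻¹ * m h * P) * diagonal l = diagonal l * (P⁻¹ * m h * P) := by
      have e2 : diagonal l * P⁻¹ = P⁻¹ * m a := by
        calc diagonal l * P⁻¹ = P⁻¹ * (P * diagonal l) * P⁻¹ := by
              rw [← Matrix.mul_assoc, nonsing_inv_mul _ hPd, Matrix.one_mul]
          _ = _ := by rw [← hMP, ← Matrix.mul_assoc, Matrix.mul_nonsing_inv_cancel_right _ _ hPd]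
      calc (P⁻¹ * m h * P) * diagonal l = P⁻¹ * m h * (P * diagonal l) := by
            simp only [Matrix.mul_assoc]
        _ = P⁻¹ * m (h * a) * P := by rw [← hMP, m_mul]; simp only [Matrix.mul_assoc]
        _ = P⁻¹ * m a * m h * P := by rw [hh, m_mul]; simp only [Matrix.mul_assoc]
        _ = _ := by rw [← e2]; simp only [Matrix.mul_assoc]
    have e3 : P⁻¹ * m h * P = diagonal (μ h) := by
      ext i j
      by_cases hij : i = j
      · subst hij; simp [μ]
      · rw [diagonal_apply_ne _ hij]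
        have := congrFun (congrFun e1 i) j
        rw [mul_diagonal, diagonal_mul] at this
        have h4 : (P⁻¹ * m h * P) i j * (l j - l i) = 0 := by linear_combination this
        exact (mul_eq_zero.1 h4).resolve_right (sub_ne_zero.2 (fun e => hij (hl e).symm))
    rw [← e3, Matrix.mul_assoc, Matrix.mul_nonsing_inv_cancel_left _ _ hPd]
  let N : Matrix (Fin 3) (Fin 3) L := Pᵀ * JJ L * P.map β
  have hN : N.det ≠ 0 := by
    have h1 : (P.map β).det = β P.det := (β.map_det P).symm
    have h2 : (JJ L).det ≠ 0 := by simp [JJ, det_fin_three]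
    simp only [N, det_mul, det_transpose, h1]
    exact mul_ne_zero (mul_ne_zero hPd.ne_zero h2) ((map_ne_zero β).2 hPd.ne_zero)
  rw [Matrix.det_apply] at hN
  obtain ⟨σ, -, hσ⟩ := Finset.exists_ne_zero_of_sum_ne_zero hN
  have hσ' : ∀ j, N (σ j) j ≠ 0 := by
    intro j h0
    apply hσ
    rw [Finset.prod_eq_zero (f := fun i => N (σ i) i) (mem_univ j) h0, smul_zero]
  have key : ((univ.filter (fun h : SU K => h * a = a * h)).image μ).card ≤ (qq K + 1) ^ 2 := by
    apply card_torus_le _ (two_le_qq K) σ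
    · intro ν hν j
      obtain ⟨h, hh, rfl⟩ := mem_image.1 hν
      have e := hdiag h (mem_filter.1 hh).2
      have e1 : N = diagonal (μ h) * N * diagonal (fun i => β (μ h i)) := by
        calc N = Pᵀ * ((m h)ᵀ * JJ L * (m h).map β) * P.map β := by rw [m_unit]
          _ = (m h * P)ᵀ * JJ L * (m h * P).map β := by
              simp only [transpose_mul, Matrix.map_mul, Matrix.mul_assoc]
          _ = _ := by
              rw [e, transpose_mul, Matrix.map_mul, diagonal_transpose,
                diagonal_map (map_zero β)]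
              simp only [N, Matrix.mul_assoc]
      have e2 := congrFun (congrFun e1 (σ j)) j
      rw [mul_diagonal, diagonal_mul, hβ] at e2
      apply mul_left_cancel₀ (hσ' j)
      linear_combination -e2
    · intro ν hν
      obtain ⟨h, hh, rfl⟩ := mem_image.1 hν
      have e := congrArg det (hdiag h (mem_filter.1 hh).2)
      rw [det_mul, det_mul, m_det, det_diagonal, Fin.prod_univ_three] at e
      apply mul_left_cancel₀ hPd.ne_zero
      linear_combination -e
  rw [Finset.card_image_of_injOn] at key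
  · unfold cent
    convert key
  · intro g hg h hh he
    have e1 := hdiag g (mem_filter.1 hg).2
    have e2 := hdiag h (mem_filter.1 hh).2
    rw [he, ← e2] at e1
    have e3 : m g = m h := hP.mul_left_inj.1 e1
    apply mat_inj
    ext i j
    exact hι (congrFun (congrFun e3 i) j)

end Pool.Agent.MP_18be4d_al

end

section

/-! Elements with a repeated eigenvalue. -/

open Finset Matrix

set_option linter.unusedSectionVars false

namespace Pool.Agent.MP_18be4d_al

variable {K : Type} [Field K] [Fintype K] [UF K]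

theorem iso_in_plane (U : Submodule K (Fin 3 → K)) (hU : 2 ≤ Module.finrank K U) :
    ∃ v ∈ U, v ≠ 0 ∧ HF v v = 0 := by
  have hne : U ≠ ⊥ := by
    rintro rfl
    simp at hU
  obtain ⟨v, hv, hv0⟩ := (Submodule.ne_bot_iff U).1 hne
  by_cases h1 : HF v v = 0
  · exact ⟨v, hv, hv0, h1⟩
  let ℓ : U →ₗ[K] K :=
    { toFun := fun x => HF x v
      map_add' := fun x y => HF_add_left _ _ _
      map_smul' := fun c x => HF_smul_left _ _ _ }
  have hk : LinearMap.ker ℓ ≠ ⊥ := LinearMap.ker_ne_bot_of_finrank_lt (by simp; omega)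
  obtain ⟨w, hw, hw0⟩ := (Submodule.ne_bot_iff _).1 hk
  have hwv : HF (w : Fin 3 → K) v = 0 := hw
  have hvw : HF v w = 0 := by rw [← bar_HF, hwv, map_zero]
  by_cases h2 : HF (w : Fin 3 → K) w = 0
  · exact ⟨w, w.2, fun h => hw0 (Subtype.ext h), h2⟩
  obtain ⟨c, hc, hc'⟩ := exists_sqrt_fixed (HF v v / HF (w : Fin 3 → K) w) (by rw [map_div₀, bar_HF, bar_HF])
  refine ⟨v + c • (w : Fin 3 → K), U.add_mem hv (U.smul_mem c w.2), ?_, ?_⟩
  · intro h0
    apply h1
    have : HF (v + c • (w : Fin 3 → K)) v = HF v v := by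
      rw [HF_add_left, HF_smul_left, hwv, mul_zero, add_zero]
    rw [← this, h0]
    simp [HF]
  · simp only [HF_add_left, HF_add_right, HF_smul_left, HF_smul_right, hwv, hvw, hc']
    have : c ^ 2 * HF (w : Fin 3 → K) w = HF v v := by rw [hc]; field_simp
    linear_combination this + HF v v * two_eq_zero K

theorem exists_iso_eigen (a : SU K) (ha : tr a * bar (tr a) = 1) :
    ∃ (v : Fin 3 → K) (l : K), v ≠ 0 ∧ HF v v = 0 ∧ mat a *ᵥ v = l • v := by
  obtain ⟨s, hs⟩ := exists_sqrt (bar (tr a))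
  have hs1 : s * bar s = 1 := by
    apply sq_inj
    rw [mul_pow, ← map_pow, hs, bar_bar, mul_comm, ha, one_pow]
  set t := tr a with ht
  have hst : s ^ 2 * t = 1 := by rw [hs, mul_comm, ha]
  let A := mat a - s • (1 : Matrix (Fin 3) (Fin 3) K)
  let B := mat a - t • (1 : Matrix (Fin 3) (Fin 3) K)
  have hA : ∀ v, A *ᵥ v = mat a *ᵥ v - s • v := fun v => by
    simp only [A, sub_mulVec, smul_mulVec, one_mulVec]
  have hB : ∀ v, B *ᵥ v = mat a *ᵥ v - t • v := fun v => by
    simp only [B, sub_mulVec, smul_mulVec, one_mulVec]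
  have hCH : A * (A * B) = 0 := by
    have h := cayley_three (mat a)
    rw [← bar_tr, det_mat, ← tr, ← ht, ← hs] at h
    rw [← h]
    simp only [A, B, Matrix.mul_sub, Matrix.sub_mul, Matrix.smul_mul, Matrix.mul_smul,
      Matrix.one_mul, Matrix.mul_one, smul_sub, smul_smul, Matrix.mul_assoc]
    ext i j
    simp only [Matrix.sub_apply, Matrix.add_apply, Matrix.smul_apply, smul_eq_mul]
    linear_combination (-s * (mat a * mat a) i j + s * t * mat a i j) * two_eq_zero K -
      (1 : Matrix (Fin 3) (Fin 3) K) i j * hst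
  by_cases hM : A * B = 0
  · have h1 : LinearMap.range (Matrix.toLin' B) ≤ LinearMap.ker (Matrix.toLin' A) := by
      rintro _ ⟨u, rfl⟩
      simp only [LinearMap.mem_ker, toLin'_apply, mulVec_mulVec, hM, zero_mulVec]
    have h2 := LinearMap.finrank_range_add_finrank_ker (Matrix.toLin' B)
    have h3 := Submodule.finrank_mono h1
    simp only [Module.finrank_fintype_fun_eq_card, Fintype.card_fin] at h2
    by_cases h4 : 2 ≤ Module.finrank K (LinearMap.ker (Matrix.toLin' A))
    · obtain ⟨v, hv, hv0, hv1⟩ := iso_in_plane _ h4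
      rw [LinearMap.mem_ker, toLin'_apply, hA, sub_eq_zero] at hv
      exact ⟨v, s, hv0, hv1, hv⟩
    · obtain ⟨v, hv, hv0, hv1⟩ := iso_in_plane (LinearMap.ker (Matrix.toLin' B)) (by omega)
      rw [LinearMap.mem_ker, toLin'_apply, hB, sub_eq_zero] at hv
      exact ⟨v, t, hv0, hv1, hv⟩
  · obtain ⟨u, hu⟩ : ∃ u, (A * B) *ᵥ u ≠ 0 := by
      by_contra hc
      push Not at hc
      apply hM
      apply Matrix.toLin'.injective
      apply LinearMap.ext
      intro u
      rw [toLin'_apply, hc]; simp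
    have h1 : mat a *ᵥ ((A * B) *ᵥ u) = s • ((A * B) *ᵥ u) := by
      rw [← sub_eq_zero, ← hA, mulVec_mulVec, hCH, zero_mulVec]
    refine ⟨_, s, hu, ?_, h1⟩
    set v := (A * B) *ᵥ u with hv
    have h2 : v = mat a *ᵥ (B *ᵥ u) - s • (B *ᵥ u) := by rw [hv, ← mulVec_mulVec, hA]
    have h3 := HF_mat a (B *ᵥ u) v
    rw [h1, HF_smul_right] at h3
    calc HF v v = HF (mat a *ᵥ (B *ᵥ u) - s • (B *ᵥ u)) v := by rw [← h2]
      _ = 0 := by
        rw [HF_sub_left, HF_smul_left, ← h3]
        linear_combination (-HF (mat a *ᵥ (B *ᵥ u)) v) * hs1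

/-- upper triangular elements -/
def Up (a : SU K) : Prop := mat a 1 0 = 0 ∧ mat a 2 0 = 0

theorem Up.struct {a : SU K} (h : Up a) : mat a 2 1 = 0 ∧ mat a 0 0 * bar (mat a 2 2) = 1 ∧
    mat a 1 1 * bar (mat a 1 1) = 1 ∧ mat a 0 0 * mat a 1 1 * mat a 2 2 = 1 ∧
    mat a 0 1 * bar (mat a 2 2) + mat a 1 1 * bar (mat a 1 2) = 0 ∧
    mat a 0 2 * bar (mat a 2 2) + mat a 1 2 * bar (mat a 1 2) + mat a 2 2 * bar (mat a 0 2) = 0 := by
  obtain ⟨h1, h2⟩ := h
  have h01 := unit_entry a 0 1
  have h02 := unit_entry a 0 2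
  have h11 := unit_entry a 1 1
  have h12 := unit_entry a 1 2
  have h22 := unit_entry a 2 2
  have hd := det_mat a
  rw [det_fin_three] at hd
  simp only [h1, h2, zero_mul, add_zero, mul_zero, sub_zero] at h01 h02 hd
  have e02 : mat a 0 0 * bar (mat a 2 2) = 1 := by simpa [JJ] using h02
  have e21 : mat a 2 1 = 0 := by
    have : mat a 0 0 * bar (mat a 2 1) = 0 := by simpa [JJ] using h01
    exact bar_eq_zero.1 ((mul_eq_zero.1 this).resolve_left (left_ne_zero_of_mul_eq_one e02))
  simp only [e21, zero_mul, add_zero, mul_zero, sub_zero, map_zero, zero_add] at h11 h12 hd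
  refine ⟨e21, e02, by simpa [JJ] using h11, hd, by simpa [JJ] using h12, by simpa [JJ] using h22⟩

/-- upper triangular elements with first eigenvalue of norm one -/
def Up0 (a : SU K) : Prop := Up a ∧ mat a 0 0 * bar (mat a 0 0) = 1

theorem Up0.diag {a : SU K} (h : Up0 a) : mat a 2 2 = mat a 0 0 := by
  have h1 := h.1.struct.2.1
  have h2 := h.2
  have h3 : bar (mat a 2 2) = bar (mat a 0 0) :=
    mul_left_cancel₀ (left_ne_zero_of_mul_eq_one h1) (h1.trans h2.symm)
  exact bar.injective h3

theorem Up0.ext {a b : SU K} (ha : Up0 a) (hb : Up0 b) (h1 : mat a 0 0 = mat b 0 0)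
    (h2 : mat a 1 2 = mat b 1 2) (h3 : mat a 0 2 = mat b 0 2) : a = b := by
  obtain ⟨a1, a2, -, a4, a5, -⟩ := ha.1.struct
  obtain ⟨b1, -, -, b4, b5, -⟩ := hb.1.struct
  have h4 : mat a 2 2 = mat b 2 2 := by rw [ha.diag, hb.diag, h1]
  have h5 : mat a 1 1 = mat b 1 1 := by
    rw [← h1, ← h4] at b4
    calc mat a 1 1 = mat a 1 1 * (mat a 0 0 * mat b 1 1 * mat a 2 2) := by rw [b4, mul_one]
      _ = (mat a 0 0 * mat a 1 1 * mat a 2 2) * mat b 1 1 := by ring
      _ = _ := by rw [a4, one_mul]
  have h6 : mat a 0 1 = mat b 0 1 := by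
    rw [← h4, ← h5, ← h2] at b5
    apply mul_right_cancel₀ (right_ne_zero_of_mul_eq_one a2)
    linear_combination a5 - b5
  apply mat_inj
  ext i j
  fin_cases i <;> fin_cases j
  · exact h1
  · exact h6
  · exact h3
  · exact ha.1.1.trans hb.1.1.symm
  · exact h5
  · exact h2
  · exact ha.1.2.trans hb.1.2.symm
  · exact a1.trans b1.symm
  · exact h4

theorem conj_eq (g a : SU K) : mat g * mat (g⁻¹ * a * g) = mat a * mat g := by
  rw [← mat_mul, ← mat_mul]; congr 1; group

theorem isConj_conj (g a : SU K) : IsConj (g⁻¹ * a * g) a := isConj_iff.2 ⟨g, by group⟩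

theorem conj_uu {a : SU K} (ha : Up0 a) (β : K) : ∃ a' : SU K, IsConj a' a ∧ Up0 a' ∧
    mat a' 0 0 = mat a 0 0 ∧ mat a' 1 2 = mat a 1 2 + β * (mat a 1 1 - mat a 0 0) ∧
    mat a' 0 2 = mat a 0 2 + mat a 0 1 * β + bar β * mat a' 1 2 := by
  let g := uu β _ (om_mem_PP β)
  have e := conj_eq g a
  set a' := g⁻¹ * a * g
  have e00 := congrFun (congrFun e 0) 0
  have e10 := congrFun (congrFun e 1) 0
  have e20 := congrFun (congrFun e 2) 0
  have e02 := congrFun (congrFun e 0) 2
  have e12 := congrFun (congrFun e 1) 2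
  have e22 := congrFun (congrFun e 2) 2
  have h21 := ha.1.struct.1
  have h22 := ha.diag
  simp [g, mat_uu, Matrix.mul_apply, Fin.sum_univ_three, ha.1.1, ha.1.2, h21, h22]
    at e00 e10 e20 e02 e12 e22
  simp only [e20, mul_zero, add_zero] at e10 e00
  simp only [e10, mul_zero, neg_zero, add_zero] at e00
  refine ⟨a', isConj_conj g a, ⟨⟨e10, e20⟩, by rw [e00]; exact ha.2⟩, e00, ?_, ?_⟩
  · rw [e22] at e12
    linear_combination e12
  · rw [e22] at e02
    linear_combination e02

theorem conj_tt {a : SU K} (ha : Up0 a) (τ : K) (h0 : τ ≠ 0) (h1 : bar τ = τ) :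
    ∃ a' : SU K, IsConj a' a ∧ Up0 a' ∧
    mat a' 0 0 = mat a 0 0 ∧ mat a' 1 2 * τ = mat a 1 2 ∧ mat a' 0 2 * τ ^ 2 = mat a 0 2 := by
  let g := tt τ h0
  have e := conj_eq g a
  set a' := g⁻¹ * a * g
  have e00 := congrFun (congrFun e 0) 0
  have e10 := congrFun (congrFun e 1) 0
  have e20 := congrFun (congrFun e 2) 0
  have e02 := congrFun (congrFun e 0) 2
  have e12 := congrFun (congrFun e 1) 2
  simp [g, mat_tt, Matrix.mul_apply, Fin.sum_univ_three, ha.1.1, ha.1.2, h0, h1]
    at e00 e10 e20 e02 e12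
  have e00' : mat a' 0 0 = mat a 0 0 := mul_left_cancel₀ h0 (by rw [e00, mul_comm])
  refine ⟨a', isConj_conj g a, ⟨⟨e10, e20⟩, by rw [e00']; exact ha.2⟩, e00', ?_, ?_⟩
  · rw [e12]; field_simp
  · field_simp at e02
    linear_combination e02

/-- representatives -/
def Rep (a : SU K) : Prop := Up0 a ∧ ((mat a 1 2 = 0 ∧ mat a 0 2 = 0) ∨
  (mat a 1 2 = 0 ∧ mat a 0 2 = mat a 0 0) ∨
  (mat a 0 0 ^ 3 = 1 ∧ mat a 1 2 * bar (mat a 1 2) = 1 ∧ mat a 0 2 = om K * mat a 0 0))

theorem rep_caseA {a : SU K} (ha : Up0 a) (h : mat a 1 2 = 0) : ∃ r, Rep r ∧ IsConj r a := by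
  by_cases h2 : mat a 0 2 = 0
  · exact ⟨a, ⟨ha, Or.inl ⟨h, h2⟩⟩, IsConj.refl a⟩
  have h3 := ha.1.struct.2.2.2.2.2
  rw [h, ha.diag] at h3
  obtain ⟨τ, hτ, hτ'⟩ := exists_sqrt_fixed (mat a 0 2 * bar (mat a 0 0)) (by
    rw [map_mul, bar_bar]
    linear_combination h3 - (mat a 0 2 * bar (mat a 0 0)) * two_eq_zero K)
  have h4 : bar (mat a 0 0) ≠ 0 := right_ne_zero_of_mul_eq_one ha.2
  have h0 : τ ≠ 0 := by
    rintro rfl
    exact mul_ne_zero h2 h4 (by rw [← hτ]; ring)
  obtain ⟨a', c1, c2, c3, c4, c5⟩ := conj_tt ha τ h0 hτ'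
  refine ⟨a', ⟨c2, Or.inr (Or.inl ⟨?_, ?_⟩)⟩, c1⟩
  · rw [h] at c4
    exact (mul_eq_zero.1 c4).resolve_right h0
  · rw [hτ] at c5
    rw [c3]
    apply mul_right_cancel₀ (mul_ne_zero h2 h4)
    linear_combination c5 - mat a 0 2 * ha.2

theorem rep_caseC {a : SU K} (ha : Up0 a) (h : mat a 0 0 ^ 3 = 1)
    (hb : mat a 1 2 * bar (mat a 1 2) = 1) : ∃ r, Rep r ∧ IsConj r a := by
  obtain ⟨-, -, -, a4, a5, a6⟩ := ha.1.struct
  have a2 := ha.2
  rw [ha.diag] at a4 a5 a6
  have h11 : mat a 1 1 = mat a 0 0 := by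
    linear_combination mat a 0 0 * a4 - mat a 1 1 * h
  rw [h11] at a5
  have hw := om_add_bar (K := K)
  have two := two_eq_zero K
  set μ := mat a 0 0
  set b := mat a 1 2
  set c := mat a 0 2
  set w := om K
  set e := c * bar μ + w with he
  have he' : bar e = e := by
    rw [he, map_add, map_mul, bar_bar]
    linear_combination a6 - hb + hw - (c * bar μ + w + 1) * two
  obtain ⟨a', c1, c2, c3, c4, c5⟩ := conj_uu ha (e * w * bar μ * b)
  rw [h11, sub_self, mul_zero, add_zero] at c4
  refine ⟨a', ⟨c2, Or.inr (Or.inr ⟨by rw [c3]; exact h, by rw [c4]; exact hb, ?_⟩)⟩, c1⟩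
  rw [c5, c4, c3]
  simp only [map_mul, bar_bar, he']
  have h01 : mat a 0 1 = - μ ^ 2 * bar b := by
    linear_combination μ * a5 - mat a 0 1 * a2
  rw [h01]
  have k1 : μ ^ 2 * bar b * (e * w * bar μ * b) = μ * e * w := by
    linear_combination (μ * e * w * b * bar b) * a2 + (μ * e * w) * hb
  have k2 : e * bar w * μ * bar b * b = e * bar w * μ := by
    linear_combination (e * bar w * μ) * hb
  have k3 : μ * e = c + μ * w := by
    rw [he]; linear_combination c * a2
  linear_combination (-1) * k1 + k2 + μ * e * hw - k3 - (μ * e * w + μ * w) * two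

theorem rep_of_Up0 {a : SU K} (ha : Up0 a) : ∃ r, Rep r ∧ IsConj r a := by
  by_cases h1 : mat a 1 2 = 0
  · exact rep_caseA ha h1
  by_cases h2 : mat a 1 1 = mat a 0 0
  · have h3 : mat a 0 0 ^ 3 = 1 := by
      have a4 := ha.1.struct.2.2.2.1
      rw [ha.diag, h2] at a4
      linear_combination a4
    obtain ⟨τ, hτ, hτ'⟩ := exists_sqrt_fixed (mat a 1 2 * bar (mat a 1 2)) (by
      rw [map_mul, bar_bar, mul_comm])
    have h4 : mat a 1 2 * bar (mat a 1 2) ≠ 0 := mul_ne_zero h1 (fun h => h1 (bar_eq_zero.1 h))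
    have h0 : τ ≠ 0 := by
      rintro rfl
      exact h4 (by rw [← hτ]; ring)
    obtain ⟨a', c1, c2, c3, c4, -⟩ := conj_tt ha τ h0 hτ'
    obtain ⟨r, hr, hr'⟩ := rep_caseC c2 (by rw [c3, h3]) (by
      apply mul_right_cancel₀ h4
      rw [one_mul]
      conv_lhs => rw [← hτ]
      rw [← c4, map_mul, hτ']
      ring)
    exact ⟨r, hr, hr'.trans c1⟩
  · obtain ⟨a', c1, c2, -, c4, -⟩ := conj_uu ha (mat a 1 2 / (mat a 0 0 - mat a 1 1))
    obtain ⟨r, hr, hr'⟩ := rep_caseA c2 (by
      have : mat a 0 0 - mat a 1 1 ≠ 0 := sub_ne_zero.2 (Ne.symm h2)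
      rw [c4]; field_simp; ring)
    exact ⟨r, hr, hr'.trans c1⟩

theorem rep_of_tr (a : SU K) (ha : tr a * bar (tr a) = 1) : ∃ r, Rep r ∧ IsConj r a := by
  obtain ⟨v, l, hv0, hv1, hv⟩ := exists_iso_eigen a ha
  obtain ⟨g, d, hd, rfl⟩ := trans_iso v hv0 hv1
  set a' := g⁻¹ * a * g with ha'
  have h1 : mat a' *ᵥ e0 K = l • e0 K := by
    rw [mulVec_smul, smul_comm] at hv
    have h2 := smul_right_injective _ hd hv
    rw [ha', mat_mul, mat_mul, ← mulVec_mulVec, ← mulVec_mulVec, h2, mulVec_smul, mulVec_mulVec,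
      mat_inv_mul, one_mulVec]
  have hUp : Up a' := by
    constructor
    · simpa [e0, mulVec, dotProduct, Fin.sum_univ_three] using congrFun h1 1
    · simpa [e0, mulVec, dotProduct, Fin.sum_univ_three] using congrFun h1 2
  have ht : tr a' = tr a := by
    have := tr_conj g⁻¹ a
    rwa [inv_inv] at this
  obtain ⟨-, a2, a3, a4, -, -⟩ := hUp.struct
  rw [← ht, tr, trace_fin_three, map_add, map_add] at ha
  have a2' := congrArg bar a2
  rw [map_mul, bar_bar, map_one] at a2'
  set μ := mat a' 0 0 with hμ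
  set ν := mat a' 1 1
  set ρ := mat a' 2 2
  have b1 : bar ρ = ν * ρ := by linear_combination ν * ρ * a2 - bar ρ * a4
  have b2 : bar ν = μ * ρ := by linear_combination μ * ρ * a3 - bar ν * a4
  have b3 : bar μ = μ * ν := by linear_combination μ * ν * a2' - bar μ * a4
  have b4 : (μ - ν) * (μ - ρ) * (ν - ρ) = 0 := by
    rw [b1, b2, b3] at ha
    linear_combination ha - a4 - (μ * ν ^ 2 + μ * ν * ρ + μ ^ 2 * ρ + ν * ρ ^ 2) * two_eq_zero K
  have hUp0 : Up0 a' := by
    refine ⟨hUp, ?_⟩
    rw [← hμ]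
    rcases mul_eq_zero.1 b4 with h | h
    · rcases mul_eq_zero.1 h with h | h
      · rw [sub_eq_zero.1 h]; exact a3
      · rw [← sub_eq_zero.1 h] at a2; exact a2
    · rw [sub_eq_zero.1 h] at a3
      have : μ = ρ := mul_right_cancel₀ (right_ne_zero_of_mul_eq_one a2) (a2.trans a3.symm)
      rw [this]; exact a3
  obtain ⟨r, hr, hr'⟩ := rep_of_Up0 hUp0
  exact ⟨r, hr, hr'.trans (isConj_conj g a)⟩

open Classical in
theorem card_Rep : (univ.filter (fun a : SU K => Rep a)).card ≤ 5 * (qq K + 1) := by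
  let R1 := univ.filter (fun a : SU K => Up0 a ∧ mat a 1 2 = 0 ∧ mat a 0 2 = 0)
  let R2 := univ.filter (fun a : SU K => Up0 a ∧ mat a 1 2 = 0 ∧ mat a 0 2 = mat a 0 0)
  let R3 := univ.filter (fun a : SU K => Up0 a ∧ mat a 0 0 ^ 3 = 1 ∧
    mat a 1 2 * bar (mat a 1 2) = 1 ∧ mat a 0 2 = om K * mat a 0 0)
  have h0 : univ.filter (fun a : SU K => Rep a) ⊆ R1 ∪ R2 ∪ R3 := by
    intro a ha
    simp only [R1, R2, R3, mem_filter, mem_univ, true_and, mem_union, Rep] at ha ⊢
    tauto
  have h1 : R1.card ≤ (UU K).card := by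
    apply Finset.card_le_card_of_injOn (fun a => mat a 0 0)
    · intro a ha
      exact mem_UU.2 (mem_filter.1 ha).2.1.2
    · intro a ha b hb h
      obtain ⟨a1, a2, a3⟩ := (mem_filter.1 ha).2
      obtain ⟨b1, b2, b3⟩ := (mem_filter.1 hb).2
      exact a1.ext b1 h (by rw [a2, b2]) (by rw [a3, b3])
  have h2 : R2.card ≤ (UU K).card := by
    apply Finset.card_le_card_of_injOn (fun a => mat a 0 0)
    · intro a ha
      exact mem_UU.2 (mem_filter.1 ha).2.1.2
    · intro a ha b hb h
      obtain ⟨a1, a2, a3⟩ := (mem_filter.1 ha).2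
      obtain ⟨b1, b2, b3⟩ := (mem_filter.1 hb).2
      exact a1.ext b1 h (by rw [a2, b2]) (by rw [a3, b3]; exact h)
  have h3 : R3.card ≤ (ZZ K ×ˢ UU K).card := by
    apply Finset.card_le_card_of_injOn (fun a => (mat a 0 0, mat a 1 2))
    · intro a ha
      obtain ⟨-, a2, a3, -⟩ := (mem_filter.1 ha).2
      exact mem_product.2 ⟨mem_ZZ.2 a2, mem_UU.2 a3⟩
    · intro a ha b hb h
      obtain ⟨a1, -, -, a3⟩ := (mem_filter.1 ha).2
      obtain ⟨b1, -, -, b3⟩ := (mem_filter.1 hb).2
      simp only [Prod.mk.injEq] at h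
      exact a1.ext b1 h.1 h.2 (by rw [a3, b3, h.1])
  rw [card_product, card_ZZ] at h3
  have h4 := card_UU K
  have h5 := Finset.card_le_card h0
  have h6 := Finset.card_union_le (R1 ∪ R2) R3
  have h7 := Finset.card_union_le R1 R2
  omega

open Classical in
theorem sum_cent_E : ∑ a ∈ univ.filter (fun a : SU K => tr a * bar (tr a) = 1), cent a ≤
    5 * (qq K + 1) * Fintype.card (SU K) := by
  refine le_trans (sum_cent_le _ (univ.filter (fun a : SU K => Rep a)) ?_)
    (Nat.mul_le_mul_right _ card_Rep)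
  intro a ha
  obtain ⟨r, hr, hr'⟩ := rep_of_tr a (mem_filter.1 ha).2
  obtain ⟨g, hg⟩ := isConj_iff.1 hr'
  exact ⟨r, by simpa using hr, g, hg.symm⟩

end Pool.Agent.MP_18be4d_al

end

section

/-! Elements with a central eigenvalue. -/

open Finset Matrix

set_option linter.unusedSectionVars false

namespace Pool.Agent.MP_18be4d_al

variable {K : Type} [Field K] [Fintype K] [UF K]

open Classical in
/-- order of the stabiliser of a vector -/
noncomputable def stab (v : Fin 3 → K) : ℕ := (univ.filter (fun g : SU K => mat g *ᵥ v = v)).card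

theorem uu_tt_mulVec (b c : K) (h : (b, c) ∈ PP K) (l : K) (hl : l ≠ 0) (v : Fin 3 → K) :
    mat (uu b c h * tt l hl) *ᵥ v =
      ![l * v 0 - bar b * (bar l * l⁻¹ * v 1) + c * ((bar l)⁻¹ * v 2),
        bar l * l⁻¹ * v 1 + b * ((bar l)⁻¹ * v 2), (bar l)⁻¹ * v 2] := by
  rw [mat_mul, ← mulVec_mulVec]
  ext i
  fin_cases i <;> simp [mat_uu, mat_tt, mulVec, dotProduct, Fin.sum_univ_three]
  ring

theorem stab_le_aux (v : Fin 3 → K) (hv : v 2 ≠ 0) :
    stab v * ((qq K ^ 2 - 1) * qq K ^ 3) ≤ Fintype.card (SU K) := by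
  classical
  let Φ : (univ.filter (fun g : SU K => mat g *ᵥ v = v)) × ((univ : Finset K).erase 0) × PP K →
      SU K := fun x => uu x.2.2.1.1 x.2.2.1.2 x.2.2.2 * tt x.2.1.1 (ne_of_mem_erase x.2.1.2) * x.1.1
  have hΦ : Function.Injective Φ := by
    rintro ⟨⟨g, hg⟩, ⟨l, hl⟩, ⟨⟨b, c⟩, hbc⟩⟩ ⟨⟨g', hg'⟩, ⟨l', hl'⟩, ⟨⟨b', c'⟩, hbc'⟩⟩ he
    simp only [Φ] at he
    have h1 := congrArg (fun x => mat x *ᵥ v) he
    simp only [mem_filter, mem_univ, true_and] at hg hg'
    rw [mat_mul, ← mulVec_mulVec, hg, mat_mul _ g', ← mulVec_mulVec, hg', uu_tt_mulVec,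
      uu_tt_mulVec] at h1
    have h2 := congrFun h1 2
    have h3 := congrFun h1 1
    have h4 := congrFun h1 0
    simp only [cons_val_two, cons_val_one, cons_val_zero, Nat.succ_eq_add_one, Nat.reduceAdd,
      tail_cons, head_cons] at h2 h3 h4
    have e1 : l = l' := bar.injective (inv_injective (mul_right_cancel₀ hv h2))
    subst e1
    have hl0 : (bar l)⁻¹ * v 2 ≠ 0 :=
      mul_ne_zero (inv_ne_zero (fun h => ne_of_mem_erase hl (bar_eq_zero.1 h))) hv
    have e2 : b = b' := mul_right_cancel₀ hl0 (add_left_cancel h3)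
    subst e2
    have e3 : c = c' := mul_right_cancel₀ hl0 (add_left_cancel h4)
    subst e3
    have e4 : g = g' := mul_left_cancel he
    subst e4
    rfl
  have := Fintype.card_le_of_injective Φ hΦ
  simp only [Fintype.card_prod, Fintype.card_coe, card_erase_of_mem (mem_univ _), card_univ,
    card_K, card_PP] at this
  unfold stab
  convert this

theorem stab_le_conj (g : SU K) (v : Fin 3 → K) : stab v ≤ stab (mat g *ᵥ v) := by
  classical
  unfold stab
  apply Finset.card_le_card_of_injOn (fun h => g * h * g⁻¹)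
  · intro h hh
    simp only [coe_filter, mem_univ, true_and, Set.mem_ofPred_eq] at hh ⊢
    rw [mulVec_mulVec, ← mat_mul, inv_mul_cancel_right, mat_mul, ← mulVec_mulVec, hh]
  · intro a _ b _ hab
    simpa using hab

theorem stab_le (v : Fin 3 → K) (hv : v ≠ 0) :
    stab v * ((qq K ^ 2 - 1) * qq K ^ 3) ≤ Fintype.card (SU K) := by
  obtain ⟨g, hg⟩ : ∃ g : SU K, (mat g *ᵥ v) 2 ≠ 0 := by
    by_cases h2 : v 2 = 0
    · by_cases h0 : v 0 = 0
      · refine ⟨ww K * uu 1 _ (om_mem_PP 1), ?_⟩
        rw [mat_mul, ← mulVec_mulVec]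
        simp [mat_ww, mat_uu, mulVec, dotProduct, Fin.sum_univ_three, h2, h0]
        intro h1
        apply hv
        ext i; fin_cases i <;> simp [h0, h1, h2]
      · exact ⟨ww K, by simpa [mat_ww, mulVec, dotProduct, Fin.sum_univ_three] using h0⟩
    · exact ⟨1, by rwa [mat_one, one_mulVec]⟩
  exact le_trans (Nat.mul_le_mul_right _ (stab_le_conj g v)) (stab_le_aux _ hg)

/-- having an eigenvalue that is a cube root of unity -/
def Eig (a : SU K) : Prop := ∃ z : K, z ^ 3 = 1 ∧ ∃ v : Fin 3 → K, v ≠ 0 ∧ mat a *ᵥ v = z • v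

theorem eig_of_tr (a : SU K) (h : bar (tr a ^ 3) = tr a ^ 3) : Eig a := by
  obtain ⟨z, hz, hz'⟩ : ∃ z : K, z ^ 3 = 1 ∧ bar (tr a) = tr a * z := by
    by_cases h0 : tr a = 0
    · exact ⟨1, by simp, by simp [h0]⟩
    · refine ⟨bar (tr a) / tr a, ?_, by field_simp⟩
      rw [div_pow, ← map_pow, h, div_self (pow_ne_zero _ h0)]
  have hd : (z • (1 : Matrix (Fin 3) (Fin 3) K) - mat a).det = 0 := by
    rw [det_sub_three, ← bar_tr, det_mat, ← tr, hz', hz]; ring
  obtain ⟨v, hv0, hv⟩ := Matrix.exists_mulVec_eq_zero_iff.2 hd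
  rw [sub_mulVec, smul_mulVec, one_mulVec, sub_eq_zero] at hv
  exact ⟨z, hz, v, hv0, hv.symm⟩

open Classical in
theorem card_Eig : (univ.filter (fun a : SU K => Eig a)).card * (qq K ^ 2 - 1) *
    ((qq K ^ 2 - 1) * qq K ^ 3) ≤ 3 * qq K ^ 6 * Fintype.card (SU K) := by
  let V0 : Finset (Fin 3 → K) := univ.erase 0
  have h1 : (univ.filter (fun a : SU K => Eig a)).card * (qq K ^ 2 - 1) ≤
      ∑ a : SU K, ∑ z ∈ ZZ K, ∑ v ∈ V0, if mat a *ᵥ v = z • v then 1 else 0 := by
    rw [← smul_eq_mul, ← Finset.sum_const]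
    refine le_trans (Finset.sum_le_sum ?_) (Finset.sum_le_sum_of_subset (subset_univ _))
    intro a ha
    obtain ⟨z, hz, v, hv0, hv⟩ := (mem_filter.1 ha).2
    refine le_trans ?_ (Finset.single_le_sum (fun _ _ => Nat.zero_le _) (mem_ZZ.2 hz))
    rw [← Finset.card_filter, ← card_K, ← card_univ, ← card_erase_of_mem (mem_univ (0 : K))]
    apply Finset.card_le_card_of_injOn (fun c => c • v)
    · intro c hc
      simp only [coe_filter, Set.mem_ofPred_eq, V0, mem_erase, mem_univ, and_true]
      exact ⟨smul_ne_zero (ne_of_mem_erase hc) hv0, by rw [mulVec_smul, hv, smul_comm]⟩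
    · intro c _ d _ h
      exact smul_left_injective K hv0 h
  have h2 : ∀ z ∈ ZZ K, ∀ v ∈ V0,
      (∑ a : SU K, if mat a *ᵥ v = z • v then 1 else 0) ≤ stab v := by
    intro z hz v _
    rw [← Finset.card_filter]
    unfold stab
    have hz3 := mem_ZZ.1 hz
    have hz' : (z ^ 2) ^ 3 = 1 := by rw [← pow_mul, mul_comm, pow_mul, hz3, one_pow]
    apply Finset.card_le_card_of_injOn (fun a => zz (z ^ 2) hz' * a)
    · intro a ha
      simp only [coe_filter, mem_univ, true_and, Set.mem_ofPred_eq] at ha ⊢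
      rw [mat_mul, ← mulVec_mulVec, ha, mat_zz, smul_mulVec, one_mulVec, smul_smul, ← pow_succ,
        hz3, one_smul]
    · intro a _ b _ hab
      simpa using hab
  rw [Finset.sum_comm] at h1
  have h3 : ∑ z ∈ ZZ K, ∑ a : SU K, ∑ v ∈ V0, (if mat a *ᵥ v = z • v then 1 else 0) ≤
      ∑ z ∈ ZZ K, ∑ v ∈ V0, stab v := by
    apply Finset.sum_le_sum
    intro z hz
    rw [Finset.sum_comm]
    exact Finset.sum_le_sum (h2 z hz)
  have h4 : (∑ v ∈ V0, stab v) * ((qq K ^ 2 - 1) * qq K ^ 3) ≤ qq K ^ 6 * Fintype.card (SU K) := by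
    rw [Finset.sum_mul]
    refine le_trans (Finset.sum_le_card_nsmul _ _ (Fintype.card (SU K))
      (fun v hv => stab_le v (ne_of_mem_erase hv))) ?_
    rw [smul_eq_mul]
    apply Nat.mul_le_mul_right
    refine le_trans (card_le_univ _) ?_
    rw [Fintype.card_fun, Fintype.card_fin, card_K, ← pow_mul]
  rw [Finset.sum_const, card_ZZ, smul_eq_mul] at h3
  calc _ ≤ (3 * ∑ v ∈ V0, stab v) * ((qq K ^ 2 - 1) * qq K ^ 3) :=
        Nat.mul_le_mul_right _ (h1.trans h3)
    _ ≤ _ := by
        rw [mul_assoc, mul_assoc 3]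
        exact Nat.mul_le_mul_left _ h4

/-- good elements -/
def Good (a : SU K) : Prop := tr a * bar (tr a) ≠ 1 ∧ bar (tr a ^ 3) ≠ tr a ^ 3

open Classical in
theorem sum_cent_bad : (∑ a ∈ univ.filter (fun a : SU K => ¬ Good a), (cent a : ℝ)) ≤
    (5 * (qq K + 1) + 3 * (qq K : ℝ) ^ 3 / (qq K - 1) ^ 2) * Fintype.card (SU K) := by
  have h1 : ∑ a ∈ univ.filter (fun a : SU K => ¬ Good a), cent a ≤
      ∑ a ∈ univ.filter (fun a : SU K => tr a * bar (tr a) = 1), cent a +
      (univ.filter (fun a : SU K => Eig a)).card * (qq K + 1) ^ 2 := by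
    rw [← smul_eq_mul, ← Finset.sum_const]
    simp only [Finset.sum_filter, ← Finset.sum_add_distrib]
    apply Finset.sum_le_sum
    intro a _
    by_cases h : tr a * bar (tr a) = 1
    · rw [if_pos h]
      split_ifs <;> omega
    · rw [if_neg h]
      by_cases h' : Good a
      · simp [h']
      · rw [if_pos h', if_pos (eig_of_tr a (by by_contra hc; exact h' ⟨h, hc⟩)), zero_add]
        exact cent_le a h
  have h2 := sum_cent_E (K := K)
  have h3 := card_Eig (K := K)
  have hq : (2 : ℝ) ≤ qq K := by exact_mod_cast two_le_qq K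
  have hq1 : 1 ≤ qq K ^ 2 := Nat.one_le_pow _ _ (by have := two_le_qq K; omega)
  have h3' : ((univ.filter (fun a : SU K => Eig a)).card : ℝ) * ((qq K : ℝ) ^ 2 - 1) *
    (((qq K : ℝ) ^ 2 - 1) * qq K ^ 3) ≤ 3 * qq K ^ 6 * Fintype.card (SU K) := by
    have := (Nat.cast_le (α := ℝ)).2 h3
    push_cast [Nat.cast_sub hq1] at this
    exact this
  have h4 : ((univ.filter (fun a : SU K => Eig a)).card : ℝ) * (qq K + 1) ^ 2 ≤
      3 * (qq K : ℝ) ^ 3 / (qq K - 1) ^ 2 * Fintype.card (SU K) := by
    have h5 : (0 : ℝ) < (qq K - 1) ^ 2 := by have : (0 : ℝ) < qq K - 1 := by linarith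
                                             positivity
    have h6 : (0 : ℝ) < (qq K) ^ 3 := by positivity
    rw [div_mul_eq_mul_div, le_div_iff₀ h5]
    apply le_of_mul_le_mul_right _ h6
    calc _ = ((univ.filter (fun a : SU K => Eig a)).card : ℝ) * ((qq K : ℝ) ^ 2 - 1) *
      (((qq K : ℝ) ^ 2 - 1) * qq K ^ 3) := by ring
      _ ≤ _ := h3'
      _ = _ := by ring
  have h1' := (Nat.cast_le (α := ℝ)).2 (h1.trans (Nat.add_le_add_right h2 _))
  push_cast at h1'
  rw [add_mul]
  linarith

end Pool.Agent.MP_18be4d_al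

end
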